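import Pool.Agent.H763R2.Dm.Lift

/-! The parity contradiction. -/

set_option autoImplicit false
open Complex Set Topology Metric

namespace Pool.Agent.H763R2.Dm

open Sq (Dv Cv Dv_re Dv_im Cv_re Cv_im)

variable {σ τ : ℝ → ℂ}

theorem fine_real {f : ℝ → ℝ} (hf : Continuous f) {δ : ℝ} (hδ : 0 < δ) :
    ∃ N0 : ℕ, 0 < N0 ∧ ∀ N : ℕ, N0 ≤ N → ∀ s ∈ Icc (0:ℝ) 1, ∀ t ∈ Icc (0:ℝ) 1,
      |s - t| ≤ 1 / N → |f s - f t| < δ := by
  have h := isCompact_Icc.uniformContinuousOn_of_continuous (hf.continuousOn (s := Icc (0:ℝ) 1))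
  obtain ⟨d, hd, h1⟩ := Metric.uniformContinuousOn_iff.1 h δ hδ
  obtain ⟨n, hn⟩ := exists_nat_one_div_lt hd
  refine ⟨n + 1, Nat.succ_pos _, fun N hN s hs t ht hst => ?_⟩
  have hN' : ((n + 1 : ℕ) : ℝ) ≤ N := by exact_mod_cast hN
  have : (1 : ℝ) / N ≤ 1 / (n + 1) := by
    push_cast at hN'
    exact one_div_le_one_div_of_le (by positivity) hN'
  exact h1 s hs t ht (by rw [Real.dist_eq]; linarith)

theorem floor_of {x : ℝ} {m : ℤ} (h1 : m * (2 * Real.pi) ≤ x) (h2 : x < (m + 1) * (2 * Real.pi)) :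
    ⌊x / (2 * Real.pi)⌋ = m := by
  have hπ := Real.pi_pos
  rw [Int.floor_eq_iff]
  constructor
  · rw [le_div_iff₀ (by positivity)]; exact h1
  · rw [div_lt_iff₀ (by positivity)]; exact h2

/-- main theorem for two arcs -/
theorem Arcs.core (H : Arcs σ τ) {κ ε κ' r : ℝ} (κ0 : 0 ≤ κ) (κ1 : κ ≤ 1)
    (hε0 : 0 < ε) (hε : ε ≤ 1) (hS : SecQ σ τ κ ε)
    (κ0' : 0 ≤ κ') (κ1' : κ' ≤ 1) (hr0 : 0 < r) (hr : r ≤ 1) (hS' : SecP σ τ κ' r) :
    ¬ NoSq (Cu σ τ) := by
  intro nosq
  have hπ := Real.pi_pos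
  obtain ⟨M0, hM0, hfM⟩ := H.fine (δ := ε / 3) (by positivity)
  set M := max M0 2 with hM
  have hM2 : 2 ≤ M := le_max_right _ _
  have hMM : M0 ≤ M := le_max_left _ _
  have hMr : (2:ℝ) ≤ M := by exact_mod_cast hM2
  set h0 : ℝ := 1 / M with hh
  have hh0 : 0 < h0 := by positivity
  have hh1 : h0 < 1 := by
    rw [hh, div_lt_one (by linarith)]; linarith
  have hA : ∀ u, 1 - h0 ≤ u → ‖σ u - I‖ < ε / 3 := by
    intro u hu
    rcases le_or_gt 1 u with h | h
    · rw [H.σ1 u h, sub_self, norm_zero]; positivity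
    · have := (hfM M hMM u 1 (by rw [abs_sub_comm, abs_of_pos (by linarith)]; linarith)).1
      rwa [H.σ1 1 le_rfl] at this
  have hB : ∀ v ≤ h0, ‖τ v - I‖ < ε / 3 := by
    intro v hv
    rcases le_or_gt v 0 with h | h
    · rw [H.τ0 v h, sub_self, norm_zero]; positivity
    · have := (hfM M hMM v 0 (by rw [sub_zero, abs_of_pos h]; exact hv)).2
      rwa [H.τ0 0 le_rfl] at this
  obtain ⟨n, θ, θ', cθ, cθ', s1, s2, ⟨t1, t2⟩, ⟨t3, t4⟩, ⟨t5, t6⟩, ⟨t7, t8⟩⟩ :=
    H.lift nosq κ0 κ1 hε0 hε hS κ0' κ1' hr0 hr hS' hh0 hh1 hA hB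
  obtain ⟨N0, hgrid⟩ := H.grid nosq κ0 κ1 hε hS hh0 hh1 hA hB
  obtain ⟨N1, hN1, f1⟩ := fine_real cθ (δ := Real.pi / 2) (by positivity)
  obtain ⟨N2, hN2, f2⟩ := fine_real cθ' (δ := Real.pi / 2) (by positivity)
  set K := N0 + N1 + N2 with hK
  have hK0 : 0 < K := by omega
  obtain ⟨L, hL, hL0⟩ : ∃ L, M * K = L + K ∧ 0 < L := by
    obtain ⟨M', hM'⟩ : ∃ M', M = M' + 1 := ⟨M - 1, by omega⟩
    refine ⟨M' * K, by rw [hM']; ring, Nat.mul_pos (by omega) hK0⟩
  have hNL : K ≤ L + K := by omega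
  have hNr : (0:ℝ) < ((L + K : ℕ) : ℝ) := by exact_mod_cast (by omega : 0 < L + K)
  have hKh : (K : ℝ) / ((L + K : ℕ) : ℝ) = h0 := by
    rw [← hL, hh]
    have : (K : ℝ) ≠ 0 := by exact_mod_cast hK0.ne'
    have : (M : ℝ) ≠ 0 := by linarith
    push_cast
    field_simp
  have G := hgrid (L + K) K (by omega) hK0 (by omega) hKh
  rw [Nat.add_sub_cancel] at G
  set N : ℝ := ((L + K : ℕ) : ℝ) with hN
  have hLh : (L : ℝ) / N = 1 - h0 := by
    rw [← hKh, eq_sub_iff_add_eq, ← add_div, ← Nat.cast_add, ← hN, div_self hNr.ne']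
  have hmem : ∀ i ≤ L + K, (i : ℝ) / N ∈ Icc (0:ℝ) 1 := by
    intro i hi
    refine ⟨by positivity, ?_⟩
    rw [div_le_one hNr]; exact Nat.cast_le.2 hi
  have hstep : ∀ i : ℕ, ((i + 1 : ℕ) : ℝ) / N - i / N = 1 / N := by
    intro i
    push_cast; field_simp; ring
  have hiff1 : ∀ i : ℕ, i ≤ L → h0 ≤ 1 - (i : ℝ) / N := by
    intro i hi
    have : (i : ℝ) / N ≤ L / N := by gcongr
    linarith
  -- the first count
  have S1 : ∑ i ∈ Finset.range (L + K), b (i < L ∧ xa σ τ (i / N) < 0) *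
        (b (0 < ya σ τ (i / N)) + b (0 < ya σ τ ((i + 1 : ℕ) / N))) = ((n - 1 : ℤ) : ZMod 2) := by
    rw [Finset.sum_range_add]
    have z : ∑ k ∈ Finset.range K, b (L + k < L ∧ xa σ τ ((L + k : ℕ) / N) < 0) *
        (b (0 < ya σ τ ((L + k : ℕ) / N)) + b (0 < ya σ τ ((L + k + 1 : ℕ) / N))) = 0 :=
      Finset.sum_eq_zero fun k _ => by
        rw [b_false (fun h => absurd h.1 (by omega)), zero_mul]
    rw [z, add_zero]
    have sf := sum_floor (ψ := fun i => θ (1 - i / N) - Real.pi) (m := L) (fun i hi => by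
      have g1 := hmem i (by omega)
      have g2 := hmem (i + 1) (by omega)
      have := f1 (L + K) (by omega) (1 - ((i + 1 : ℕ) : ℝ) / N)
        ⟨by linarith [g2.2], by linarith [g2.1]⟩ (1 - (i : ℝ) / N)
        ⟨by linarith [g1.2], by linarith [g1.1]⟩ (by
          have e : 1 - ((i + 1 : ℕ) : ℝ) / N - (1 - (i : ℝ) / N) = -(1 / N) := by
            linarith [hstep i]
          rw [e, abs_neg, abs_of_pos (by positivity)])
      convert this using 2
      ring)
    simp only [Nat.cast_zero, zero_div, sub_zero, hLh, sub_sub_cancel] at sf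
    rw [floor_of (m := n - 1) (by push_cast; linarith) (by push_cast; linarith),
      floor_of (m := 0) (by push_cast; linarith) (by push_cast; linarith), sub_zero] at sf
    rw [← sf]
    refine Finset.sum_congr rfl fun i hi => ?_
    have hi' := Finset.mem_range.1 hi
    obtain ⟨g1, g2⟩ := s1 (1 - i / N) (hiff1 i hi'.le) (by linarith [(hmem i (by omega)).1])
    obtain ⟨-, g3⟩ := s1 (1 - (i + 1 : ℕ) / N) (hiff1 (i + 1) hi')
      (by linarith [(hmem (i + 1) (by omega)).1])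
    rw [sub_sub_cancel] at g1 g2 g3
    rw [Real.cos_sub_pi, Real.sin_sub_pi, Real.sin_sub_pi]
    congr 1
    · refine b_congr ⟨fun h => ?_, fun h => ⟨hi', ?_⟩⟩
      · have := g1.2 h.2; linarith
      · exact g1.1 (by linarith)
    · congr 1
      · refine b_congr ⟨fun h => ?_, fun h => ?_⟩
        · have := g2.2 h; linarith
        · exact g2.1 (by linarith)
      · refine b_congr ⟨fun h => ?_, fun h => ?_⟩
        · have := g3.2 h; linarith
        · exact g3.1 (by linarith)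
  -- the second count
  have S2 : ∑ j ∈ Finset.range (L + K), b (K ≤ j ∧ yb σ τ (j / N) < 0) *
        (b (0 < xb σ τ (j / N)) + b (0 < xb σ τ ((j + 1 : ℕ) / N))) = ((n : ℤ) : ZMod 2) := by
    rw [add_comm L K, Finset.sum_range_add]
    have z : ∑ j ∈ Finset.range K, b (K ≤ j ∧ yb σ τ (j / N) < 0) *
        (b (0 < xb σ τ (j / N)) + b (0 < xb σ τ ((j + 1 : ℕ) / N))) = 0 :=
      Finset.sum_eq_zero fun k hk => by
        have := Finset.mem_range.1 hk
        rw [b_false (fun h => absurd h.1 (by omega)), zero_mul]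
    rw [z, zero_add]
    have sf := sum_floor (ψ := fun k => -(Real.pi / 2) - θ' ((K + k : ℕ) / N)) (m := L)
      (fun i hi => by
      have g1 := hmem (K + i) (by omega)
      have g2 := hmem (K + (i + 1)) (by omega)
      have := f2 (L + K) (by omega) _ g1 _ g2 (by
          have e : ((K + i : ℕ) : ℝ) / N - ((K + (i + 1) : ℕ) : ℝ) / N = -(1 / N) := by
            have h1 := hstep (K + i)
            rw [add_assoc K i 1] at h1
            linarith
          rw [e, abs_neg, abs_of_pos (by positivity)])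
      convert this using 2
      ring)
    have c1 : ((K + L : ℕ) : ℝ) / N = 1 := by
      rw [add_comm K L, ← hN, div_self hNr.ne']
    simp only [add_zero, hKh, c1] at sf
    rw [floor_of (x := -(Real.pi / 2) - θ' 1) (m := -1) (by push_cast; linarith)
        (by push_cast; linarith),
      floor_of (x := -(Real.pi / 2) - θ' h0) (m := -n - 1) (by push_cast; linarith)
        (by push_cast; linarith)] at sf
    rw [show (-1 - (-n - 1) : ℤ) = n by ring] at sf
    rw [← sf]
    refine Finset.sum_congr rfl fun k hk => ?_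
    have hk' := Finset.mem_range.1 hk
    have hlow : ∀ k : ℕ, h0 ≤ ((K + k : ℕ) : ℝ) / N := by
      intro k
      rw [← hKh]
      gcongr
      exact_mod_cast Nat.le_add_right K k
    obtain ⟨g1, g2⟩ := s2 ((K + k : ℕ) / N) (hlow k) (hmem (K + k) (by omega)).2
    obtain ⟨-, g3⟩ := s2 ((K + (k + 1) : ℕ) / N) (hlow (k + 1)) (hmem (K + (k + 1)) (by omega)).2
    have ec : ∀ x : ℝ, Real.cos (-(Real.pi / 2) - x) = - Real.sin x := by
      intro x
      rw [show -(Real.pi / 2) - x = -(x + Real.pi / 2) by ring, Real.cos_neg,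
        Real.cos_add_pi_div_two]
    have es : ∀ x : ℝ, Real.sin (-(Real.pi / 2) - x) = - Real.cos x := by
      intro x
      rw [show -(Real.pi / 2) - x = -(x + Real.pi / 2) by ring, Real.sin_neg,
        Real.sin_add_pi_div_two]
    rw [ec, es, es]
    congr 1
    · refine b_congr ⟨fun h => ?_, fun h => ⟨by omega, ?_⟩⟩
      · have := g1.2 h.2; linarith
      · exact g1.1 (by linarith)
    · congr 1
      · refine b_congr ⟨fun h => ?_, fun h => ?_⟩
        · have := g2.2 h; linarith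
        · exact g2.1 (by linarith)
      · refine b_congr ⟨fun h => ?_, fun h => ?_⟩
        · have := g3.2 h; linarith
        · exact g3.1 (by linarith)
  rw [S1, S2] at G
  push_cast at G
  have : (1 : ZMod 2) = 0 := by linear_combination -G
  exact absurd this (by decide)

end Pool.Agent.H763R2.Dm
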