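import Pool.Agent.H763R2.Dm.Grid

/-! The two counts agree. -/

set_option autoImplicit false
open Complex Set Topology Metric

namespace Pool.Agent.H763R2.Dm

open Sq (Dv Cv Dv_re Dv_im Cv_re Cv_im)

variable {σ τ : ℝ → ℂ}

theorem uc_of {f : ℝ → ℂ} {a c : ℂ} (hf : Continuous f) (h0 : ∀ u ≤ 0, f u = a)
    (h1 : ∀ u, 1 ≤ u → f u = c) : UniformContinuous f := by
  have h : UniformContinuous (fun x : Icc (0:ℝ) 1 => f x) :=
    CompactSpace.uniformContinuous_of_continuous (hf.comp continuous_subtype_val)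
  have hp : UniformContinuous (projIcc (0:ℝ) 1 zero_le_one) :=
    (LipschitzWith.projIcc zero_le_one).uniformContinuous
  have e : f = (fun x : Icc (0:ℝ) 1 => f x) ∘ projIcc (0:ℝ) 1 zero_le_one := by
    funext t
    simp only [Function.comp, coe_projIcc]
    rcases le_or_gt t 0 with h | h
    · rw [h0 t h, min_eq_right (by linarith), max_eq_left h, h0 0 le_rfl]
    rcases le_or_gt 1 t with h' | h'
    · rw [h1 t h', min_eq_left h', max_eq_right zero_le_one, h1 1 le_rfl]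
    · rw [min_eq_right h'.le, max_eq_right h.le]
  rw [e]
  exact h.comp hp

theorem Arcs.fine (H : Arcs σ τ) {δ : ℝ} (hδ : 0 < δ) : ∃ N0 : ℕ, 0 < N0 ∧ ∀ N : ℕ, N0 ≤ N →
    ∀ s t : ℝ, |s - t| ≤ 1 / N → ‖σ s - σ t‖ < δ ∧ ‖τ s - τ t‖ < δ := by
  obtain ⟨d1, hd1, h1⟩ := Metric.uniformContinuous_iff.1 (uc_of H.cσ H.σ0 H.σ1) δ hδ
  obtain ⟨d2, hd2, h2⟩ := Metric.uniformContinuous_iff.1 (uc_of H.cτ H.τ0 H.τ1) δ hδ
  obtain ⟨n, hn⟩ := exists_nat_one_div_lt (lt_min hd1 hd2)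
  refine ⟨n + 1, Nat.succ_pos _, fun N hN s t hst => ?_⟩
  have hN' : ((n + 1 : ℕ) : ℝ) ≤ N := by exact_mod_cast hN
  have : (1 : ℝ) / N ≤ 1 / (n + 1) := by
    push_cast at hN'
    exact one_div_le_one_div_of_le (by positivity) hN'
  have h3 : |s - t| < min d1 d2 := by linarith
  have a1 := h1 (a := s) (b := t) (by rw [Real.dist_eq]; exact h3.trans_le (min_le_left _ _))
  have a2 := h2 (a := s) (b := t) (by rw [Real.dist_eq]; exact h3.trans_le (min_le_right _ _))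
  rw [dist_eq_norm] at a1 a2
  exact ⟨a1, a2⟩

theorem nI_ne_I : (-I : ℂ) ≠ I := by
  intro h
  have := congrArg Complex.im h
  simp at this
  norm_num at this

theorem Arcs.σ_ne (H : Arcs σ τ) {u : ℝ} (hu : u < 1) : σ u ≠ I := by
  intro h
  rcases le_or_gt u 0 with h' | h'
  · rw [H.σ0 u h'] at h; exact nI_ne_I h
  · have := H.σp u ⟨h', hu⟩
    rw [h] at this; simp at this

theorem Arcs.τ_ne (H : Arcs σ τ) {v : ℝ} (hv : 0 < v) : τ v ≠ I := by
  intro h
  rcases le_or_gt 1 v with h' | h'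
  · rw [H.τ1 v h'] at h; exact nI_ne_I h
  · have := H.τn v ⟨hv, h'⟩
    rw [h] at this; simp at this

theorem Arcs.sepA (H : Arcs σ τ) (nosq : NoSq (Cu σ τ)) {a : ℝ} (ha0 : 0 ≤ a) (ha : a < 1) :
    ∃ δ > 0, ∀ u ∈ Icc (0:ℝ) a, δ ≤ |xa σ τ u| ∨ δ ≤ |ya σ τ u| := by
  have h1 := H.xa_cont
  have h2 := H.ya_cont
  obtain ⟨u, hu, hmin⟩ := isCompact_Icc.exists_isMinOn (nonempty_Icc.2 ha0)
    (f := fun u => max |xa σ τ u| |ya σ τ u|) (by fun_prop)
  refine ⟨max |xa σ τ u| |ya σ τ u|, ?_, fun v hv => le_max_iff.1 (hmin hv)⟩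
  by_contra hc
  push Not at hc
  have e1 : xa σ τ u = 0 := abs_eq_zero.1 (le_antisymm ((le_max_left _ _).trans hc) (abs_nonneg _))
  have e2 : ya σ τ u = 0 := abs_eq_zero.1 (le_antisymm ((le_max_right _ _).trans hc) (abs_nonneg _))
  unfold xa at e1
  unfold ya at e2
  rw [H.mg_zero] at e1 e2
  refine nosq ⟨σ u, I - σ u, ?_, mem_σ u, ?_, ?_, ?_⟩
  · exact sub_ne_zero.2 (H.σ_ne (by linarith [hu.2])).symm
  · rw [add_sub_cancel]; exact H.memI
  · rw [add_sub_cancel]; exact e2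
  · exact e1

theorem Arcs.sepB (H : Arcs σ τ) (nosq : NoSq (Cu σ τ)) {a : ℝ} (ha0 : 0 < a) (ha : a ≤ 1) :
    ∃ δ > 0, ∀ u ∈ Icc a 1, δ ≤ |yb σ τ u| ∨ δ ≤ |xb σ τ u| := by
  have h1 := H.xb_cont
  have h2 := H.yb_cont
  obtain ⟨u, hu, hmin⟩ := isCompact_Icc.exists_isMinOn (nonempty_Icc.2 ha)
    (f := fun u => max |yb σ τ u| |xb σ τ u|) (by fun_prop)
  refine ⟨max |yb σ τ u| |xb σ τ u|, ?_, fun v hv => le_max_iff.1 (hmin hv)⟩
  by_contra hc
  push Not at hc
  have e1 : yb σ τ u = 0 := abs_eq_zero.1 (le_antisymm ((le_max_left _ _).trans hc) (abs_nonneg _))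
  have e2 : xb σ τ u = 0 := abs_eq_zero.1 (le_antisymm ((le_max_right _ _).trans hc) (abs_nonneg _))
  unfold yb at e1
  unfold xb at e2
  rw [H.mg_zero] at e1 e2
  refine nosq ⟨I, τ u - I, ?_, H.memI, ?_, ?_, ?_⟩
  · exact sub_ne_zero.2 (H.τ_ne (by linarith [hu.1]))
  · rw [add_sub_cancel]; exact mem_τ u
  · rw [add_sub_cancel]; exact e1
  · exact e2

theorem Arcs.cpt (H : Arcs σ τ) (nosq : NoSq (Cu σ τ)) {κ ε : ℝ} (κ0 : 0 ≤ κ) (κ1 : κ ≤ 1)
    (hε : ε ≤ 1) (hS : SecQ σ τ κ ε) {h0 : ℝ} (hh0 : 0 < h0)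
    (hA : ∀ u, 1 - h0 ≤ u → ‖σ u - I‖ < ε / 3) (hB : ∀ v ≤ h0, ‖τ v - I‖ < ε / 3) :
    ∃ δ > 0, ∀ u ∈ Icc (0:ℝ) 1, ∀ v ∈ Icc (0:ℝ) 1, ‖Gf σ τ u v‖ < δ →
      ((u < 1 - h0 ∧ xa σ τ u < 0) ↔ (h0 ≤ v ∧ yb σ τ v < 0)) := by
  set Bad : Set (ℝ × ℝ) := {p | (p.1 ∈ Icc (0:ℝ) 1 ∧ p.2 ∈ Icc (0:ℝ) 1) ∧
    ¬ ((p.1 < 1 - h0 ∧ xa σ τ p.1 < 0) ↔ (h0 ≤ p.2 ∧ yb σ τ p.2 < 0))} with hBad
  have hsub : Bad ⊆ Icc (0:ℝ) 1 ×ˢ Icc (0:ℝ) 1 := fun p hp => hp.1
  have hcpt : IsCompact (closure Bad) :=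
    (isCompact_Icc.prod isCompact_Icc).closure_of_subset hsub
  have hsub' : closure Bad ⊆ Icc (0:ℝ) 1 ×ˢ Icc (0:ℝ) 1 :=
    closure_minimal hsub (isClosed_Icc.prod isClosed_Icc)
  have hxa : Continuous fun p : ℝ × ℝ => xa σ τ p.1 := H.xa_cont.comp continuous_fst
  have hyb : Continuous fun p : ℝ × ℝ => yb σ τ p.2 := H.yb_cont.comp continuous_snd
  have key : ∀ p ∈ closure Bad, Gf σ τ p.1 p.2 ≠ 0 := by
    rintro ⟨u, v⟩ hp hG
    obtain ⟨hu, hv⟩ := hsub' hp
    simp only at hu hv hG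
    have hfr := mem_closure_iff_frequently.1 hp
    have hAB : σ u = Dv I (τ v) := sub_eq_zero.1 hG
    by_cases hI : σ u = I
    · have u1 : 1 - h0 < u := by
        by_contra hc
        push Not at hc
        exact H.σ_ne (by linarith) hI
      have hBI : τ v = I := by
        rw [hI] at hAB
        unfold Sq.Dv at hAB
        have : I * (τ v - I) = 0 := by linear_combination -hAB
        rcases mul_eq_zero.1 this with h | h
        · exact absurd h I_ne_zero
        · exact sub_eq_zero.1 h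
      have v0 : v < h0 := by
        by_contra hc
        push Not at hc
        exact H.τ_ne (by linarith) hBI
      have m1 : {q : ℝ × ℝ | 1 - h0 < q.1} ∈ 𝓝 (u, v) :=
        (isOpen_lt continuous_const continuous_fst).mem_nhds u1
      have m2 : {q : ℝ × ℝ | q.2 < h0} ∈ 𝓝 (u, v) :=
        (isOpen_lt continuous_snd continuous_const).mem_nhds v0
      refine hfr ?_
      filter_upwards [m1, m2] with q q1 q2 hq
      exact hq.2 ⟨fun h => absurd h.1 (not_lt.2 (le_of_lt q1)),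
        fun h => absurd h.1 (not_le.2 q2)⟩
    · have hB' : τ v - I = -I * (σ u - I) := by
        unfold Sq.Dv at hAB
        linear_combination I * hAB + (τ v - I) * I_mul_I
      have hval : xa σ τ u = yb σ τ v := by
        unfold xa yb
        congr 1
        unfold Sq.Dv Sq.Cv
        linear_combination (-1 - I) * hB' + (σ u - I) * I_mul_I
      have hBne : τ v - I ≠ 0 := by
        rw [hB']; exact mul_ne_zero (neg_ne_zero.2 I_ne_zero) (sub_ne_zero.2 hI)
      rcases lt_trichotomy (xa σ τ u) 0 with hx | hx | hx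
      · have hCv : Cv (σ u) I = τ v := by
          unfold Sq.Cv
          linear_combination -hB'
        have hya : mg σ τ (Cv (σ u) I) = 0 := by
          rw [hCv, H.mg_zero]; exact mem_τ v
        have hnA : ε / 3 ≤ ‖σ u - I‖ := by
          by_contra hc
          push Not at hc
          have := H.q2 κ0 κ1 hε hS hc (abs_le.1 (H.σi u)).2
            (H.secσ κ1 hε hS (by
              have := lt_of_le_of_lt (norm_nonneg _) hc
              linarith)) hx
          linarith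
        have hnB : ε / 3 ≤ ‖τ v - I‖ := by
          rw [hB', norm_mul, norm_neg, norm_I, one_mul]; exact hnA
        have u1 : u < 1 - h0 := by
          by_contra hc
          push Not at hc
          exact absurd (hA u hc) (not_lt.2 hnA)
        have v0 : h0 < v := by
          by_contra hc
          push Not at hc
          exact absurd (hB v hc) (not_lt.2 hnB)
        have m1 : {q : ℝ × ℝ | q.1 < 1 - h0} ∈ 𝓝 (u, v) :=
          (isOpen_lt continuous_fst continuous_const).mem_nhds u1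
        have m2 : {q : ℝ × ℝ | h0 < q.2} ∈ 𝓝 (u, v) :=
          (isOpen_lt continuous_const continuous_snd).mem_nhds v0
        have m3 : {q : ℝ × ℝ | xa σ τ q.1 < 0} ∈ 𝓝 (u, v) :=
          (isOpen_lt hxa continuous_const).mem_nhds hx
        have m4 : {q : ℝ × ℝ | yb σ τ q.2 < 0} ∈ 𝓝 (u, v) :=
          (isOpen_lt hyb continuous_const).mem_nhds (by rw [hval] at hx; exact hx)
        refine hfr ?_
        filter_upwards [m1, m2, m3, m4] with q q1 q2 q3 q4 hq
        exact hq.2 ⟨fun _ => ⟨le_of_lt q2, q4⟩, fun _ => ⟨q1, q3⟩⟩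
      · exfalso
        rw [hval] at hx
        unfold yb at hx
        rw [H.mg_zero] at hx
        refine nosq ⟨I, τ v - I, hBne, H.memI, ?_, ?_, ?_⟩
        · rw [add_sub_cancel]; exact mem_τ v
        · rw [add_sub_cancel]; exact hx
        · have : I + I * (τ v - I) = σ u := by rw [hAB]; rfl
          rw [this]; exact mem_σ u
      · have m3 : {q : ℝ × ℝ | 0 < xa σ τ q.1} ∈ 𝓝 (u, v) :=
          (isOpen_lt continuous_const hxa).mem_nhds hx
        have m4 : {q : ℝ × ℝ | 0 < yb σ τ q.2} ∈ 𝓝 (u, v) :=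
          (isOpen_lt continuous_const hyb).mem_nhds (by rw [hval] at hx; exact hx)
        refine hfr ?_
        filter_upwards [m3, m4] with q q3 q4 hq
        exact hq.2 ⟨fun h => absurd h.2 (not_lt.2 (le_of_lt q3)),
          fun h => absurd h.2 (not_lt.2 (le_of_lt q4))⟩
  rcases (closure Bad).eq_empty_or_nonempty with he | hne
  · refine ⟨1, one_pos, fun u hu v hv _ => ?_⟩
    by_contra hc
    have : (u, v) ∈ closure Bad := subset_closure ⟨⟨hu, hv⟩, hc⟩
    rw [he] at this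
    exact this
  · have hGc : Continuous fun p : ℝ × ℝ => ‖Gf σ τ p.1 p.2‖ := by
      unfold Gf Sq.Dv
      have := H.cσ
      have := H.cτ
      fun_prop
    obtain ⟨p, hp, hmin⟩ := hcpt.exists_isMinOn hne hGc.continuousOn
    refine ⟨‖Gf σ τ p.1 p.2‖, norm_pos_iff.2 (key p hp), fun u hu v hv h => ?_⟩
    by_contra hc
    have : (u, v) ∈ closure Bad := subset_closure ⟨⟨hu, hv⟩, hc⟩
    have := hmin this
    have h2 : ‖Gf σ τ p.1 p.2‖ ≤ ‖Gf σ τ u v‖ := this
    linarith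

theorem Arcs.xa_lip (H : Arcs σ τ) (u u' : ℝ) : |xa σ τ u - xa σ τ u'| ≤ 2 * ‖σ u - σ u'‖ := by
  refine (H.mg_lip _ _).trans ?_
  have e : Dv (σ u) I - Dv (σ u') I = (σ u - σ u') - I * (σ u - σ u') := by
    unfold Sq.Dv; ring
  rw [e]
  have := norm_sub_le (σ u - σ u') (I * (σ u - σ u'))
  rw [norm_mul, norm_I, one_mul] at this
  linarith

theorem Arcs.yb_lip (H : Arcs σ τ) (u u' : ℝ) : |yb σ τ u - yb σ τ u'| ≤ 2 * ‖τ u - τ u'‖ := by
  refine (H.mg_lip _ _).trans ?_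
  have e : Cv I (τ u) - Cv I (τ u') = (τ u - τ u') + I * (τ u - τ u') := by
    unfold Sq.Cv; ring
  rw [e]
  have := norm_add_le (τ u - τ u') (I * (τ u - τ u'))
  rw [norm_mul, norm_I, one_mul] at this
  linarith

theorem Gf_lip (u v u' v' : ℝ) :
    ‖Gf σ τ u' v' - Gf σ τ u v‖ ≤ ‖σ u' - σ u‖ + ‖τ v' - τ v‖ := by
  have e : Gf σ τ u' v' - Gf σ τ u v = (σ u' - σ u) - I * (τ v' - τ v) := by
    unfold Gf Sq.Dv; ring
  rw [e]
  have := norm_sub_le (σ u' - σ u) (I * (τ v' - τ v))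
  rw [norm_mul, norm_I, one_mul] at this
  linarith

theorem Arcs.ya0 (H : Arcs σ τ) : ya σ τ 0 ≤ 0 := by
  unfold ya
  refine H.mg_top ?_
  rw [Cv_im, H.σ0 0 le_rfl]
  simp

theorem Arcs.xb1 (H : Arcs σ τ) : xb σ τ 1 ≤ 0 := by
  unfold xb
  refine H.mg_top ?_
  rw [Dv_im, H.τ1 1 le_rfl]
  simp

/-- the two counts agree modulo 2 -/
theorem Arcs.grid (H : Arcs σ τ) (nosq : NoSq (Cu σ τ)) {κ ε : ℝ} (κ0 : 0 ≤ κ) (κ1 : κ ≤ 1)
    (hε : ε ≤ 1) (hS : SecQ σ τ κ ε) {h0 : ℝ} (hh0 : 0 < h0) (hh1 : h0 < 1)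
    (hA : ∀ u, 1 - h0 ≤ u → ‖σ u - I‖ < ε / 3) (hB : ∀ v ≤ h0, ‖τ v - I‖ < ε / 3) :
    ∃ N0 : ℕ, ∀ N K : ℕ, N0 ≤ N → 0 < K → K < N → (K : ℝ) / N = h0 →
      ∑ i ∈ Finset.range N, b (i < N - K ∧ xa σ τ (i / N) < 0) *
        (b (0 < ya σ τ (i / N)) + b (0 < ya σ τ ((i + 1 : ℕ) / N))) =
      ∑ j ∈ Finset.range N, b (K ≤ j ∧ yb σ τ (j / N) < 0) *
        (b (0 < xb σ τ (j / N)) + b (0 < xb σ τ ((j + 1 : ℕ) / N))) := by
  obtain ⟨δ1, hδ1, P1⟩ := H.cpt nosq κ0 κ1 hε hS hh0 hA hB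
  obtain ⟨δ2, hδ2, P2⟩ := H.sepA nosq (a := 1 - h0) (by linarith) (by linarith)
  obtain ⟨δ3, hδ3, P3⟩ := H.sepB nosq (a := h0) hh0 hh1.le
  obtain ⟨δ4, hδ4, P4⟩ : ∃ δ > 0, xa σ τ (1 - h0) < 0 → δ ≤ ya σ τ (1 - h0) := by
    by_cases h : xa σ τ (1 - h0) < 0
    · have h2 := hA (1 - h0) le_rfl
      have hε0 : 0 < ε / 3 := lt_of_le_of_lt (norm_nonneg _) h2
      exact ⟨_, H.q2 κ0 κ1 hε hS h2 (abs_le.1 (H.σi _)).2 (H.secσ κ1 hε hS (by linarith)) h,
        fun _ => le_rfl⟩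
    · exact ⟨1, one_pos, fun h' => absurd h' h⟩
  obtain ⟨δ5, hδ5, P5⟩ : ∃ δ > 0, yb σ τ h0 < 0 → δ ≤ xb σ τ h0 := by
    by_cases h : yb σ τ h0 < 0
    · have h2 := hB h0 le_rfl
      have hε0 : 0 < ε / 3 := lt_of_le_of_lt (norm_nonneg _) h2
      exact ⟨_, H.q3 κ0 κ1 hε hS h2 (abs_le.1 (H.τi _)).2 (H.secτ κ0 hε hS (by linarith)) h,
        fun _ => le_rfl⟩
    · exact ⟨1, one_pos, fun h' => absurd h' h⟩
  obtain ⟨δ, hδ, L1, L2, L3, L4, L5⟩ : ∃ δ > 0, δ ≤ δ1 ∧ δ ≤ δ2 ∧ δ ≤ δ3 ∧ δ ≤ δ4 ∧ δ ≤ δ5 :=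
    ⟨min δ1 (min δ2 (min δ3 (min δ4 δ5))), by positivity, by simp, by simp, by simp, by simp,
      by simp⟩
  obtain ⟨N0, hN0, hfine⟩ := H.fine (δ := δ / 8) (by positivity)
  refine ⟨N0, fun N K hN hK hKN hKh => ?_⟩
  have hf := hfine N hN
  have hN1 : 0 < N := by omega
  have hNr : (0:ℝ) < N := by exact_mod_cast hN1
  have hstep : ∀ i : ℕ, |((i + 1 : ℕ) : ℝ) / N - i / N| ≤ 1 / N := by
    intro i
    have : ((i + 1 : ℕ) : ℝ) / N - i / N = 1 / N := by push_cast; field_simp; ring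
    rw [this, abs_of_pos (by positivity)]
  have hmem : ∀ i ≤ N, (i : ℝ) / N ∈ Icc (0:ℝ) 1 := by
    intro i hi
    refine ⟨by positivity, ?_⟩
    rw [div_le_one hNr]; exact_mod_cast hi
  have c1 : (N : ℝ) / N = 1 := div_self hNr.ne'
  have hcut : ((N - K : ℕ) : ℝ) / N = 1 - h0 := by
    rw [Nat.cast_sub hKN.le, sub_div, c1, hKh]
  have hiff1 : ∀ i : ℕ, i < N - K ↔ (i : ℝ) / N < 1 - h0 := by
    intro i
    rw [← hcut, div_lt_div_iff_of_pos_right hNr, Nat.cast_lt]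
  have hiff2 : ∀ j : ℕ, K ≤ j ↔ h0 ≤ (j : ℝ) / N := by
    intro j
    rw [← hKh, div_le_div_iff_of_pos_right hNr, Nat.cast_le]
  set Hh : ℕ → ℕ → ZMod 2 := fun i j =>
    eps (Gf σ τ (i / N) (j / N)) (Gf σ τ (i / N) ((j + 1 : ℕ) / N)) with hHh
  set Vv : ℕ → ℕ → ZMod 2 := fun i j =>
    eps (Gf σ τ (i / N) (j / N)) (Gf σ τ ((i + 1 : ℕ) / N) (j / N)) with hVv
  have D := double (N := N) (Hh := Hh) (Vv := Vv)
    (X := fun i => b (i < N - K ∧ xa σ τ (i / N) < 0))
    (Y := fun j => b (K ≤ j ∧ yb σ τ (j / N) < 0))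
    (fun i _ => by simp only [hVv, Nat.cast_zero, zero_div]; exact H.Vv0 _ _)
    (fun i _ => by simp only [hVv, c1]; exact H.Vv1 _ _)
    (fun j _ => by simp only [hHh, Nat.cast_zero, zero_div]; exact H.Hh0 _ _)
    (fun j _ => by simp only [hHh, c1]; exact H.Hh1 _ _)
    (fun i hi j hj hg => by
      refine b_congr ?_
      rw [hiff1, hiff2]
      refine P1 _ (hmem i hi.le) _ (hmem j hj.le) ?_
      by_contra hc
      push Not at hc
      refine hg ?_
      have s1 := hf _ _ (hstep i)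
      have s2 := hf _ _ (hstep j)
      refine cell (δ := δ) (L1.trans hc) ?_ ?_ ?_
      · refine (Gf_lip _ _ _ _).trans_lt ?_
        rw [sub_self, norm_zero]
        linarith [s2.2]
      · refine (Gf_lip _ _ _ _).trans_lt ?_
        rw [sub_self, norm_zero]
        linarith [s1.1]
      · refine (Gf_lip _ _ _ _).trans_lt ?_
        linarith [s1.1, s2.2])
  have hlt : ∀ {s t : ℝ}, |s - t| ≤ 1 / N → ‖σ s - σ t‖ < δ ∧ ‖τ s - τ t‖ < δ := by
    intro s t h
    have := hf s t h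
    constructor <;> linarith [this.1, this.2]
  have cσ : ∀ i : ℕ, δ ≤ |ya σ τ (i / N)| →
      ∑ j ∈ Finset.range N, Hh i j = b (0 < ya σ τ (i / N)) :=
    fun i hi => H.count_σ hN1 (fun s t h => (hlt h).2) hi hδ
  have cτ : ∀ j : ℕ, δ ≤ |xb σ τ (j / N)| →
      ∑ i ∈ Finset.range N, Vv i j = b (0 < xb σ τ (j / N)) :=
    fun j hj => H.count_τ hN1 (fun s t h => (hlt h).1) hj hδ
  obtain ⟨n, rfl⟩ : ∃ n, N = n + 1 := ⟨N - 1, by omega⟩
  have PX := parts (n := n) (X := fun i => b (i < n + 1 - K ∧ xa σ τ (i / (n + 1 : ℕ)) < 0))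
    (a := fun i => b (0 < ya σ τ (i / (n + 1 : ℕ))) + ∑ j ∈ Finset.range (n + 1), Hh i j)
    (by
      have h1 : ∑ j ∈ Finset.range (n + 1), Hh 0 j = 0 :=
        Finset.sum_eq_zero fun j _ => by
          simp only [hHh, Nat.cast_zero, zero_div]; exact H.Hh0 _ _
      simp only [h1, Nat.cast_zero, zero_div]
      rw [b_false (p := 0 < ya σ τ 0) (not_lt.2 H.ya0)]
      simp)
    (by
      intro i hi hi'
      by_cases hy : δ ≤ |ya σ τ (i / (n + 1 : ℕ))|
      · simp only [cσ i hy, two_zero, mul_zero]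
      · push Not at hy
        have hprev : ((i - 1 + 1 : ℕ) : ℝ) = (i : ℝ) := by congr 1; omega
        have hs := hf _ _ (hstep (i - 1))
        rw [hprev] at hs
        have hL := (H.xa_lip (i / (n + 1 : ℕ)) ((i - 1 : ℕ) / (n + 1 : ℕ))).trans
          (mul_le_mul_of_nonneg_left hs.1.le (by norm_num))
        have hXX : b (i < n + 1 - K ∧ xa σ τ (i / (n + 1 : ℕ)) < 0) =
            b (i - 1 < n + 1 - K ∧ xa σ τ ((i - 1 : ℕ) / (n + 1 : ℕ)) < 0) := by
          rcases lt_trichotomy i (n + 1 - K) with hc | hc | hc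
          · have hx : δ ≤ |xa σ τ (i / (n + 1 : ℕ))| := by
              rcases P2 _ ⟨(hmem i (by omega)).1, ((hiff1 i).1 hc).le⟩ with h | h <;> linarith
            refine b_congr ?_
            constructor
            · rintro ⟨-, h⟩
              rw [abs_of_neg h] at hx
              exact ⟨by omega, by linarith [(abs_le.1 hL).1]⟩
            · rintro ⟨-, h⟩
              refine ⟨hc, ?_⟩
              by_contra h'
              push Not at h'
              rw [abs_of_nonneg h'] at hx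
              linarith [(abs_le.1 hL).2]
          · rw [b_false (fun h => absurd h.1 (by omega)), b_false]
            rintro ⟨-, h⟩
            have hval : (i : ℝ) / (n + 1 : ℕ) = 1 - h0 := by rw [hc]; exact hcut
            rw [hval] at hy hL
            have hx : δ ≤ |xa σ τ (1 - h0)| := by
              rcases P2 (1 - h0) ⟨by linarith, le_rfl⟩ with h | h <;> linarith
            rcases lt_or_ge (xa σ τ (1 - h0)) 0 with h' | h'
            · have := P4 h'
              rw [abs_lt] at hy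
              linarith [hy.2]
            · rw [abs_of_nonneg h'] at hx
              linarith [(abs_le.1 hL).2]
          · rw [b_false (fun h => absurd h.1 (by omega)),
              b_false (fun h => absurd h.1 (by omega))]
        simp only [hXX, two_zero, zero_mul])
  have PY := parts (n := n) (X := fun j => b (K ≤ j ∧ yb σ τ (j / (n + 1 : ℕ)) < 0))
    (a := fun j => b (0 < xb σ τ (j / (n + 1 : ℕ))) + ∑ i ∈ Finset.range (n + 1), Vv i j)
    (by
      rw [b_false (fun h => absurd h.1 (by omega))]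
      simp)
    (by
      intro i hi hi'
      by_cases hy : δ ≤ |xb σ τ (i / (n + 1 : ℕ))|
      · simp only [cτ i hy, two_zero, mul_zero]
      · push Not at hy
        have hprev : ((i - 1 + 1 : ℕ) : ℝ) = (i : ℝ) := by congr 1; omega
        have hs := hf _ _ (hstep (i - 1))
        rw [hprev] at hs
        have hL := (H.yb_lip (i / (n + 1 : ℕ)) ((i - 1 : ℕ) / (n + 1 : ℕ))).trans
          (mul_le_mul_of_nonneg_left hs.2.le (by norm_num))
        have hXX : b (K ≤ i ∧ yb σ τ (i / (n + 1 : ℕ)) < 0) =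
            b (K ≤ i - 1 ∧ yb σ τ ((i - 1 : ℕ) / (n + 1 : ℕ)) < 0) := by
          rcases lt_trichotomy i K with hc | hc | hc
          · rw [b_false (fun h => absurd h.1 (by omega)),
              b_false (fun h => absurd h.1 (by omega))]
          · rw [b_false (p := K ≤ i - 1 ∧ _) (fun h => absurd h.1 (by omega)), b_false]
            rintro ⟨-, h⟩
            have hval : (i : ℝ) / (n + 1 : ℕ) = h0 := by rw [hc]; exact hKh
            rw [hval] at hy hL h
            have := P5 h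
            rw [abs_lt] at hy
            linarith [hy.2]
          · have hx : δ ≤ |yb σ τ (i / (n + 1 : ℕ))| := by
              rcases P3 _ ⟨(hiff2 i).1 hc.le, (hmem i (by omega)).2⟩ with h | h <;> linarith
            refine b_congr ?_
            constructor
            · rintro ⟨-, h⟩
              rw [abs_of_neg h] at hx
              exact ⟨by omega, by linarith [(abs_le.1 hL).1]⟩
            · rintro ⟨-, h⟩
              refine ⟨hc.le, ?_⟩
              by_contra h'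
              push Not at h'
              rw [abs_of_nonneg h'] at hx
              linarith [(abs_le.1 hL).2]
        simp only [hXX, two_zero, zero_mul])
  have rX : (b (n < n + 1 - K ∧ xa σ τ (n / (n + 1 : ℕ)) < 0) : ZMod 2) = 0 :=
    b_false (fun h => absurd h.1 (by omega))
  have rY : (b (0 < xb σ τ ((n + 1 : ℕ) / (n + 1 : ℕ))) : ZMod 2) = 0 := by
    rw [c1]; exact b_false (not_lt.2 H.xb1)
  have rY' : ∑ i ∈ Finset.range (n + 1), Vv i (n + 1) = 0 :=
    Finset.sum_eq_zero fun i _ => by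
      simp only [hVv, c1]; exact H.Vv1 _ _
  simp only [rX, zero_mul] at PX
  simp only [rY, rY', add_zero, mul_zero] at PY
  have splitX : ∀ (X p q : ℕ → ZMod 2), ∑ i ∈ Finset.range (n + 1),
      X i * (p i + q i + (p (i + 1) + q (i + 1))) =
      ∑ i ∈ Finset.range (n + 1), X i * (p i + p (i + 1)) +
      ∑ i ∈ Finset.range (n + 1), X i * (q i + q (i + 1)) := by
    intro X p q
    rw [← Finset.sum_add_distrib]
    exact Finset.sum_congr rfl fun i _ => by ring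
  have sX := splitX (fun i => b (i < n + 1 - K ∧ xa σ τ (i / (n + 1 : ℕ)) < 0))
    (fun i => b (0 < ya σ τ (i / (n + 1 : ℕ)))) (fun i => ∑ j ∈ Finset.range (n + 1), Hh i j)
  have sY := splitX (fun j => b (K ≤ j ∧ yb σ τ (j / (n + 1 : ℕ)) < 0))
    (fun j => b (0 < xb σ τ (j / (n + 1 : ℕ)))) (fun j => ∑ i ∈ Finset.range (n + 1), Vv i j)
  rw [PX] at sX
  rw [PY] at sY
  rw [D] at sX
  have h2 := two_zero (∑ j ∈ Finset.range (n + 1), b (K ≤ j ∧ yb σ τ (j / (n + 1 : ℕ)) < 0) *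
    (∑ i ∈ Finset.range (n + 1), Vv i j + ∑ i ∈ Finset.range (n + 1), Vv i (j + 1)))
  linear_combination -sX + sY

end Pool.Agent.H763R2.Dm
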