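import Pool.Agent.H763R2.Sq.Wind

/-! Discrete crossing counts modulo 2. -/

set_option autoImplicit false
open Complex Set Topology Metric

namespace Pool.Agent.H763R2.Dm

open Classical in
/-- indicator with values in `ZMod 2` -/
noncomputable def b (p : Prop) : ZMod 2 := if p then 1 else 0

theorem b_true {p : Prop} (h : p) : b p = 1 := if_pos h
theorem b_false {p : Prop} (h : ¬ p) : b p = 0 := if_neg h
theorem b_congr {p q : Prop} (h : p ↔ q) : b p = b q := by rw [propext h]

theorem floor_step {ψ ψ' : ℝ} (h : |ψ' - ψ| < Real.pi / 2) :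
    ((⌊ψ' / (2 * Real.pi)⌋ - ⌊ψ / (2 * Real.pi)⌋ : ℤ) : ZMod 2) =
      b (0 < Real.cos ψ) * (b (Real.sin ψ < 0) + b (Real.sin ψ' < 0)) := by
  have hπ := Real.pi_pos
  set k := ⌊ψ / (2 * Real.pi)⌋ with hk
  set φ := ψ - k * (2 * Real.pi) with hφ
  set φ' := ψ' - k * (2 * Real.pi) with hφ'
  have e1 : Real.cos ψ = Real.cos φ := (Real.cos_sub_int_mul_two_pi _ _).symm
  have e2 : Real.sin ψ = Real.sin φ := (Real.sin_sub_int_mul_two_pi _ _).symm
  have e3 : Real.sin ψ' = Real.sin φ' := (Real.sin_sub_int_mul_two_pi _ _).symm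
  have f0 : 0 ≤ φ := by
    have := Int.floor_le (ψ / (2 * Real.pi))
    rw [le_div_iff₀ (by positivity)] at this
    linarith
  have f1 : φ < 2 * Real.pi := by
    have := Int.lt_floor_add_one (ψ / (2 * Real.pi))
    rw [div_lt_iff₀ (by positivity)] at this
    simp only [← hk] at this
    linarith
  have hd : |φ' - φ| < Real.pi / 2 := by
    have : φ' - φ = ψ' - ψ := by simp only [hφ, hφ']; ring
    rw [this]; exact h
  have e4 : ⌊ψ' / (2 * Real.pi)⌋ = ⌊φ' / (2 * Real.pi)⌋ + k := by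
    rw [← Int.floor_add_intCast]
    congr 1
    simp only [hφ']
    field_simp
    ring
  rw [e1, e2, e3, e4, add_sub_cancel_right]
  obtain ⟨d1, d2⟩ := abs_lt.1 hd
  rcases lt_or_ge φ' 0 with g | g
  · have : ⌊φ' / (2 * Real.pi)⌋ = -1 := by
      rw [Int.floor_eq_iff]
      constructor
      · rw [le_div_iff₀ (by positivity)]; push_cast; linarith
      · rw [div_lt_iff₀ (by positivity)]; push_cast; linarith
    rw [this, b_true (Real.cos_pos_of_mem_Ioo ⟨by linarith, by linarith⟩),
      b_false (not_lt.2 (Real.sin_nonneg_of_nonneg_of_le_pi f0 (by linarith))),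
      b_true (Real.sin_neg_of_neg_of_neg_pi_lt g (by linarith))]
    decide
  rcases lt_or_ge φ' (2 * Real.pi) with g' | g'
  · have : ⌊φ' / (2 * Real.pi)⌋ = 0 := by
      rw [Int.floor_eq_iff]
      constructor
      · push_cast; positivity
      · rw [div_lt_iff₀ (by positivity)]; push_cast; linarith
    rw [this]
    rcases lt_or_ge φ (Real.pi / 2) with c | c
    · rw [b_false (not_lt.2 (Real.sin_nonneg_of_nonneg_of_le_pi f0 (by linarith))),
        b_false (not_lt.2 (Real.sin_nonneg_of_nonneg_of_le_pi g (by linarith)))]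
      simp
    rcases le_or_gt φ (3 * Real.pi / 2) with c' | c'
    · rw [b_false (not_lt.2 (Real.cos_nonpos_of_pi_div_two_le_of_le c (by linarith)))]
      simp
    · have s1 : Real.sin φ < 0 := by
        have := Real.sin_neg_of_neg_of_neg_pi_lt (x := φ - 2 * Real.pi) (by linarith)
          (by linarith)
        rwa [Real.sin_sub_two_pi] at this
      have s2 : Real.sin φ' < 0 := by
        have := Real.sin_neg_of_neg_of_neg_pi_lt (x := φ' - 2 * Real.pi) (by linarith)
          (by linarith)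
        rwa [Real.sin_sub_two_pi] at this
      rw [b_true s1, b_true s2]
      have : (1 + 1 : ZMod 2) = 0 := by decide
      rw [this]; simp
  · have : ⌊φ' / (2 * Real.pi)⌋ = 1 := by
      rw [Int.floor_eq_iff]
      constructor
      · rw [le_div_iff₀ (by positivity)]; push_cast; linarith
      · rw [div_lt_iff₀ (by positivity)]; push_cast; linarith
    have s0 : 0 < Real.cos φ := by
      have := Real.cos_pos_of_mem_Ioo (x := φ - 2 * Real.pi) ⟨by linarith, by linarith⟩
      rwa [Real.cos_sub_two_pi] at this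
    have s1 : Real.sin φ < 0 := by
      have := Real.sin_neg_of_neg_of_neg_pi_lt (x := φ - 2 * Real.pi) (by linarith)
        (by linarith)
      rwa [Real.sin_sub_two_pi] at this
    have s2 : 0 ≤ Real.sin φ' := by
      have := Real.sin_nonneg_of_nonneg_of_le_pi (x := φ' - 2 * Real.pi) (by linarith)
        (by linarith)
      rwa [Real.sin_sub_two_pi] at this
    rw [this, b_true s0, b_true s1, b_false (not_lt.2 s2)]
    decide

theorem sum_floor {ψ : ℕ → ℝ} {m : ℕ} (h : ∀ i < m, |ψ (i + 1) - ψ i| < Real.pi / 2) :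
    ∑ i ∈ Finset.range m, b (0 < Real.cos (ψ i)) *
      (b (Real.sin (ψ i) < 0) + b (Real.sin (ψ (i + 1)) < 0)) =
      ((⌊ψ m / (2 * Real.pi)⌋ - ⌊ψ 0 / (2 * Real.pi)⌋ : ℤ) : ZMod 2) := by
  rw [← Finset.sum_range_sub (fun i => ⌊ψ i / (2 * Real.pi)⌋), Int.cast_sum]
  exact Finset.sum_congr rfl fun i hi => (floor_step (h i (Finset.mem_range.1 hi))).symm

/-- crossing indicator of the positive imaginary axis -/
noncomputable def eps (p q : ℂ) : ZMod 2 := b (0 < p.im) * (b (0 < p.re) + b (0 < q.re))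

/-- floor of an argument -/
noncomputable def fl (k : ℂ) : ℤ := ⌊(k.im - Real.pi / 2) / (2 * Real.pi)⌋

theorem fl_add (k : ℂ) (m : ℤ) : fl (k + m * (2 * Real.pi * I)) = fl k + m := by
  unfold fl
  rw [← Int.floor_add_intCast]
  congr 1
  have hπ := Real.pi_pos
  have : (k + m * (2 * Real.pi * I)).im = k.im + m * (2 * Real.pi) := by
    rw [show (m : ℂ) * (2 * Real.pi * I) = ((m * (2 * Real.pi) : ℝ) : ℂ) * I by push_cast; ring]
    simp
  rw [this]
  field_simp
  ring

theorem eps_eq {k l : ℂ} (h : |l.im - k.im| < Real.pi / 2) :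
    eps (exp k) (exp l) = ((fl l - fl k : ℤ) : ZMod 2) := by
  have := floor_step (ψ := k.im - Real.pi / 2) (ψ' := l.im - Real.pi / 2) (by
    convert h using 2; ring)
  unfold eps fl
  rw [this, Real.cos_sub_pi_div_two, Real.sin_sub_pi_div_two, Real.sin_sub_pi_div_two,
    exp_re, exp_im, exp_re]
  have ek := Real.exp_pos k.re
  have el := Real.exp_pos l.re
  rw [b_congr (p := 0 < Real.exp k.re * Real.sin k.im) (q := 0 < Real.sin k.im)
      (mul_pos_iff_of_pos_left ek),
    b_congr (p := 0 < Real.exp k.re * Real.cos k.im) (q := -Real.cos k.im < 0)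
      (by rw [mul_pos_iff_of_pos_left ek]; simp),
    b_congr (p := 0 < Real.exp l.re * Real.cos l.im) (q := -Real.cos l.im < 0)
      (by rw [mul_pos_iff_of_pos_left el]; simp)]

theorem abs_lt_of_cos {x : ℝ} (h1 : -Real.pi < x) (h2 : x < Real.pi) (h3 : 0 < Real.cos x) :
    |x| < Real.pi / 2 := by
  by_contra hc
  push Not at hc
  have hx : |x| < Real.pi := abs_lt.2 ⟨h1, h2⟩
  have := Real.cos_nonpos_of_pi_div_two_le_of_le hc (by linarith [Real.pi_pos])
  rw [Real.cos_abs] at this
  linarith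

/-- a point near `p` has a logarithm near that of `p` -/
theorem exists_near_log {k : ℂ} {q : ℂ} (h : ‖q - exp k‖ < ‖exp k‖) :
    ∃ l : ℂ, exp l = q ∧ |l.im - k.im| < Real.pi / 2 := by
  have hp : exp k ≠ 0 := exp_ne_zero k
  have hr : 0 < (q / exp k).re := by
    have : ‖q / exp k - 1‖ < 1 := by
      rw [div_sub_one hp, norm_div, div_lt_one (norm_pos_iff.2 hp)]
      exact h
    have h2 := (abs_lt.1 (lt_of_le_of_lt (abs_re_le_norm _) this)).1
    simp only [sub_re, one_re] at h2
    linarith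
  have hne : q / exp k ≠ 0 := by
    intro h0; rw [h0] at hr; simp at hr
  refine ⟨k + log (q / exp k), ?_, ?_⟩
  · rw [exp_add, exp_log hne, mul_div_cancel₀ _ hp]
  · rw [add_im, add_sub_cancel_left, log_im]
    exact abs_arg_lt_pi_div_two_iff.2 (Or.inl hr)

theorem near_of_exp {k l : ℂ} (h1 : |l.im - k.im| < Real.pi) (h : ‖exp l - exp k‖ < ‖exp k‖) :
    |l.im - k.im| < Real.pi / 2 := by
  obtain ⟨h2, h3⟩ := abs_lt.1 h1
  refine abs_lt_of_cos h2 h3 ?_
  have hp : exp k ≠ 0 := exp_ne_zero k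
  have hr : 0 < (exp l / exp k).re := by
    have : ‖exp l / exp k - 1‖ < 1 := by
      rw [div_sub_one hp, norm_div, div_lt_one (norm_pos_iff.2 hp)]
      exact h
    have h2 := (abs_lt.1 (lt_of_le_of_lt (abs_re_le_norm _) this)).1
    simp only [sub_re, one_re] at h2
    linarith
  rw [← exp_sub, exp_re, sub_im] at hr
  exact (mul_pos_iff_of_pos_left (Real.exp_pos _)).1 hr

/-- a cell far from the origin has no net crossing -/
theorem cell {p q r s : ℂ} {δ : ℝ} (hp : δ ≤ ‖p‖) (hq : ‖q - p‖ < δ / 4) (hr : ‖r - p‖ < δ / 4)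
    (hs : ‖s - p‖ < δ / 4) : eps p q + eps r s + eps p r + eps q s = 0 := by
  have hδ : 0 < δ := by
    have := lt_of_le_of_lt (norm_nonneg _) hq
    linarith
  have hp0 : p ≠ 0 := norm_pos_iff.1 (by linarith)
  obtain ⟨k, rfl⟩ : ∃ k, exp k = p := ⟨log p, exp_log hp0⟩
  obtain ⟨lq, rfl, aq⟩ := exists_near_log (k := k) (q := q) (by linarith)
  obtain ⟨lr, rfl, ar⟩ := exists_near_log (k := k) (q := r) (by linarith)
  obtain ⟨ls, rfl, as⟩ := exists_near_log (k := k) (q := s) (by linarith)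
  have hπ := Real.pi_pos
  have nq : 3 * δ / 4 < ‖exp lq‖ := by
    have := norm_sub_norm_le (exp k) (exp lq)
    rw [norm_sub_rev] at this
    linarith
  have nr : 3 * δ / 4 < ‖exp lr‖ := by
    have := norm_sub_norm_le (exp k) (exp lr)
    rw [norm_sub_rev] at this
    linarith
  have a1 := abs_lt.1 aq
  have a2 := abs_lt.1 ar
  have a3 := abs_lt.1 as
  have e1 : |ls.im - lr.im| < Real.pi / 2 := near_of_exp
    (abs_lt.2 ⟨by linarith [a1.1, a2.2, a3.1], by linarith [a2.1, a3.2]⟩) (by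
      have := norm_sub_le_norm_sub_add_norm_sub (exp ls) (exp k) (exp lr)
      rw [norm_sub_rev (exp k) (exp lr)] at this
      linarith)
  have e2 : |ls.im - lq.im| < Real.pi / 2 := near_of_exp
    (abs_lt.2 ⟨by linarith [a1.2, a3.1], by linarith [a1.1, a3.2]⟩) (by
      have := norm_sub_le_norm_sub_add_norm_sub (exp ls) (exp k) (exp lq)
      rw [norm_sub_rev (exp k) (exp lq)] at this
      linarith)
  rw [eps_eq aq, eps_eq e1, eps_eq ar, eps_eq e2]
  push_cast
  have h2 : (2 : ZMod 2) = 0 := by decide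
  linear_combination (((fl ls : ℤ) : ZMod 2) - ((fl k : ℤ) : ZMod 2)) * h2

/-- the floor of a continuous angle which avoids the fourth quadrant is constant -/
theorem floor_const_le {ψ : ℝ → ℝ} (hψ : Continuous ψ)
    (h : ∀ t, ¬ (Real.sin (ψ t) < 0 ∧ 0 < Real.cos (ψ t))) (s t : ℝ) :
    ⌊ψ s / (2 * Real.pi)⌋ ≤ ⌊ψ t / (2 * Real.pi)⌋ := by
  have hπ := Real.pi_pos
  by_contra hc
  push Not at hc
  set m := ⌊ψ s / (2 * Real.pi)⌋
  have h1 : m * (2 * Real.pi) ≤ ψ s := by
    have := Int.floor_le (ψ s / (2 * Real.pi))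
    rw [le_div_iff₀ (by positivity)] at this
    exact this
  have h2 : ψ t < m * (2 * Real.pi) := by
    have := Int.floor_lt.1 hc
    rw [div_lt_iff₀ (by positivity)] at this
    exact this
  set c := min (Real.pi / 4) (m * (2 * Real.pi) - ψ t) with hcdef
  have hc0 : 0 < c := lt_min (by positivity) (by linarith)
  have hc1 : c ≤ Real.pi / 4 := min_le_left _ _
  have hc2 : c ≤ m * (2 * Real.pi) - ψ t := min_le_right _ _
  obtain ⟨x, hx⟩ : m * (2 * Real.pi) - c ∈ range ψ :=
    mem_range_of_exists_le_of_exists_ge hψ ⟨t, by linarith⟩ ⟨s, by linarith⟩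
  refine h x ⟨?_, ?_⟩
  · rw [hx, show (m : ℝ) * (2 * Real.pi) - c = -c + m * (2 * Real.pi) by ring,
      Real.sin_add_int_mul_two_pi, Real.sin_neg]
    have := Real.sin_pos_of_pos_of_lt_pi hc0 (by linarith)
    linarith
  · rw [hx, show (m : ℝ) * (2 * Real.pi) - c = -c + m * (2 * Real.pi) by ring,
      Real.cos_add_int_mul_two_pi, Real.cos_neg]
    exact Real.cos_pos_of_mem_Ioo ⟨by linarith, by linarith⟩

theorem floor_const {ψ : ℝ → ℝ} (hψ : Continuous ψ)
    (h : ∀ t, ¬ (Real.sin (ψ t) < 0 ∧ 0 < Real.cos (ψ t))) (s t : ℝ) :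
    ⌊ψ s / (2 * Real.pi)⌋ = ⌊ψ t / (2 * Real.pi)⌋ :=
  le_antisymm (floor_const_le hψ h s t) (floor_const_le hψ h t s)

theorem two_zero (a : ZMod 2) : a + a = 0 := by
  have : ∀ x : ZMod 2, x + x = 0 := by decide
  exact this a

/-- summation by parts modulo 2 -/
theorem parts {X a : ℕ → ZMod 2} (h0 : X 0 * a 0 = 0) {n : ℕ}
    (h : ∀ i, 0 < i → i < n + 1 → (X i + X (i - 1)) * a i = 0) :
    ∑ i ∈ Finset.range (n + 1), X i * (a i + a (i + 1)) = X n * a (n + 1) := by
  induction n with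
  | zero => simp [mul_add, h0]
  | succ n ih =>
    rw [Finset.sum_range_succ, ih (fun i hi hi' => h i hi (by omega))]
    have := h (n + 1) (by omega) (by omega)
    rw [Nat.add_sub_cancel] at this
    linear_combination this

/-- double counting modulo 2 -/
theorem double {N : ℕ} {Hh Vv : ℕ → ℕ → ZMod 2} (hV0 : ∀ i < N, Vv i 0 = 0)
    (hVN : ∀ i < N, Vv i N = 0) (hH0 : ∀ j < N, Hh 0 j = 0) (hHN : ∀ j < N, Hh N j = 0)
    {X Y : ℕ → ZMod 2}
    (h : ∀ i < N, ∀ j < N, Hh i j + Hh (i + 1) j + Vv i j + Vv i (j + 1) ≠ 0 → X i = Y j) :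
    ∑ i ∈ Finset.range N, X i * (∑ j ∈ Finset.range N, Hh i j +
      ∑ j ∈ Finset.range N, Hh (i + 1) j) =
    ∑ j ∈ Finset.range N, Y j * (∑ i ∈ Finset.range N, Vv i j +
      ∑ i ∈ Finset.range N, Vv i (j + 1)) := by
  have tel : ∀ (f : ℕ → ZMod 2) (n : ℕ), ∑ i ∈ Finset.range n, (f i + f (i + 1)) = f 0 + f n := by
    intro f n
    induction n with
    | zero => simp [two_zero]
    | succ n ih =>
      rw [Finset.sum_range_succ, ih]
      linear_combination two_zero (f n)
  have e1 : ∀ i ∈ Finset.range N, X i * (∑ j ∈ Finset.range N, Hh i j +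
      ∑ j ∈ Finset.range N, Hh (i + 1) j) =
      ∑ j ∈ Finset.range N, X i * (Hh i j + Hh (i + 1) j + Vv i j + Vv i (j + 1)) := by
    intro i hi
    rw [← Finset.mul_sum]
    congr 1
    have := tel (fun j => Vv i j) N
    rw [hV0 i (Finset.mem_range.1 hi), hVN i (Finset.mem_range.1 hi), add_zero] at this
    rw [← Finset.sum_add_distrib, ← add_zero (∑ j ∈ Finset.range N, _), ← this,
      ← Finset.sum_add_distrib]
    exact Finset.sum_congr rfl fun j _ => by ring
  have e2 : ∀ j ∈ Finset.range N, Y j * (∑ i ∈ Finset.range N, Vv i j +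
      ∑ i ∈ Finset.range N, Vv i (j + 1)) =
      ∑ i ∈ Finset.range N, Y j * (Hh i j + Hh (i + 1) j + Vv i j + Vv i (j + 1)) := by
    intro j hj
    rw [← Finset.mul_sum]
    congr 1
    have := tel (fun i => Hh i j) N
    rw [hH0 j (Finset.mem_range.1 hj), hHN j (Finset.mem_range.1 hj), add_zero] at this
    rw [← Finset.sum_add_distrib, ← add_zero (∑ j ∈ Finset.range N, _), ← this,
      ← Finset.sum_add_distrib]
    exact Finset.sum_congr rfl fun i _ => by ring
  rw [Finset.sum_congr rfl e1, Finset.sum_congr rfl e2, Finset.sum_comm]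
  refine Finset.sum_congr rfl fun j hj => Finset.sum_congr rfl fun i hi => ?_
  by_cases hg : Hh i j + Hh (i + 1) j + Vv i j + Vv i (j + 1) = 0
  · rw [hg]; simp
  · rw [h i (Finset.mem_range.1 hi) j (Finset.mem_range.1 hj) hg]

end Pool.Agent.H763R2.Dm
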