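import Pool.Agent.H763R2.Dm.M
import Pool.Agent.H763R2.Dm.U

/-! Double counting on a grid. -/

set_option autoImplicit false
open Complex Set Topology Metric

namespace Pool.Agent.H763R2.Dm

open Sq (Dv Cv Dv_re Dv_im Cv_re Cv_im)

/-- the map whose zeros are the pairs with `σ u = ρ (τ v)` -/
noncomputable def Gf (σ τ : ℝ → ℂ) (u v : ℝ) : ℂ := σ u - Dv I (τ v)

variable {σ τ : ℝ → ℂ}

theorem Gf_eq (u v : ℝ) : Gf σ τ u v = -I * (τ v - Cv (σ u) I) := by
  unfold Gf Sq.Dv Sq.Cv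
  linear_combination (σ u - I) * I_mul_I

noncomputable def xa (σ τ : ℝ → ℂ) (u : ℝ) : ℝ := mg σ τ (Dv (σ u) I)
noncomputable def ya (σ τ : ℝ → ℂ) (u : ℝ) : ℝ := mg σ τ (Cv (σ u) I)
noncomputable def xb (σ τ : ℝ → ℂ) (v : ℝ) : ℝ := mg σ τ (Dv I (τ v))
noncomputable def yb (σ τ : ℝ → ℂ) (v : ℝ) : ℝ := mg σ τ (Cv I (τ v))

/-- the set contains no vertices of a square -/
def NoSq (C : Set ℂ) : Prop := ¬ ∃ z w : ℂ, w ≠ 0 ∧ z ∈ C ∧ z + w ∈ C ∧
      z + w + I * w ∈ C ∧ z + I * w ∈ C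

theorem Arcs.xa_cont (H : Arcs σ τ) : Continuous (xa σ τ) := by
  have h1 := H.mg_cont
  have h2 := H.cσ
  unfold xa Sq.Dv
  exact h1.comp (by fun_prop)

theorem Arcs.ya_cont (H : Arcs σ τ) : Continuous (ya σ τ) := by
  have h1 := H.mg_cont
  have h2 := H.cσ
  unfold ya Sq.Cv
  exact h1.comp (by fun_prop)

theorem Arcs.xb_cont (H : Arcs σ τ) : Continuous (xb σ τ) := by
  have h1 := H.mg_cont
  have h2 := H.cτ
  unfold xb Sq.Dv
  exact h1.comp (by fun_prop)

theorem Arcs.yb_cont (H : Arcs σ τ) : Continuous (yb σ τ) := by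
  have h1 := H.mg_cont
  have h2 := H.cτ
  unfold yb Sq.Cv
  exact h1.comp (by fun_prop)

theorem log_step {g l : ℝ → ℂ} (hg : Continuous g) (hl : Continuous l)
    (he : ∀ t, exp (l t) = g t) {s t : ℝ}
    (h : ∀ x ∈ Icc (0:ℝ) 1, ‖g (s + x * (t - s)) - g s‖ < ‖g s‖) :
    |(l t).im - (l s).im| < Real.pi / 2 := by
  have hs : g s ≠ 0 := by rw [← he]; exact exp_ne_zero _
  have hre : ∀ x ∈ Icc (0:ℝ) 1, 0 < (g (s + x * (t - s)) / g s).re := by
    intro x hx
    have : ‖g (s + x * (t - s)) / g s - 1‖ < 1 := by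
      rw [div_sub_one hs, norm_div, div_lt_one (norm_pos_iff.2 hs)]
      exact h x hx
    have h2 := (abs_lt.1 (lt_of_le_of_lt (abs_re_le_norm _) this)).1
    simp only [sub_re, one_re] at h2
    linarith
  have := Sq.log_diff_on (g := fun x => g (s + x * (t - s))) (k := fun x => l (s + x * (t - s)))
    (by fun_prop) (by fun_prop) (fun x => he _) hs
    (fun x hx => Or.inl (hre x hx))
  simp only [one_mul, zero_mul, add_zero, add_sub_cancel, div_self hs, log_one, sub_zero] at this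
  have h3 : (l t).im - (l s).im = (log (g t / g s)).im := by rw [← this, sub_im]
  rw [h3, log_im]
  have h4 := hre 1 (by norm_num)
  rw [one_mul, add_sub_cancel] at h4
  exact abs_arg_lt_pi_div_two_iff.2 (Or.inl h4)

theorem cast_eq_b (H : Arcs σ τ) {z : ℂ} (hz : z ∉ Cu σ τ) {n : ℤ} (h : IsW σ τ z n) :
    ((n : ℤ) : ZMod 2) = b (0 < mg σ τ z) := by
  have hpos := (H.closed.notMem_iff_infDist_pos H.ne).1 hz
  rcases Int.even_or_odd n with he | ho
  · have : ¬ Od σ τ z := by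
      rintro ⟨m, hm, ho⟩
      rw [hm.unique h] at ho
      exact (Int.not_even_iff_odd.2 ho) he
    have h2 : ¬ (0 < mg σ τ z) := by
      unfold mg; rw [if_neg this]; linarith
    rw [b_false h2]
    obtain ⟨r, rfl⟩ := he
    push_cast
    exact two_zero _
  · have h2 : 0 < mg σ τ z := by
      unfold mg; rw [if_pos ⟨n, h, ho⟩]; exact hpos
    rw [b_true h2]
    obtain ⟨r, rfl⟩ := ho
    push_cast
    have : (2 : ZMod 2) = 0 := by decide
    rw [this]; ring

theorem tele (L : ℝ → ℂ) {N : ℕ} (hN : 0 < N)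
    (h : ∀ j < N, |(L ((j + 1 : ℕ) / N : ℝ)).im - (L (j / N : ℝ)).im| < Real.pi / 2) :
    ∑ j ∈ Finset.range N, eps (exp (L (j / N : ℝ))) (exp (L ((j + 1 : ℕ) / N : ℝ))) =
      ((fl (L 1) - fl (L 0) : ℤ) : ZMod 2) := by
  have e := Finset.sum_range_sub (fun j : ℕ => fl (L ((j : ℝ) / N))) N
  have hN' : (N : ℝ) ≠ 0 := by exact_mod_cast hN.ne'
  simp only [Nat.cast_zero, zero_div, div_self hN'] at e
  rw [← e, Int.cast_sum]
  exact Finset.sum_congr rfl fun j hj => eps_eq (h j (Finset.mem_range.1 hj))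

theorem mid_step {N : ℕ} (hN : 0 < N) (j : ℕ) {x : ℝ} (hx : x ∈ Icc (0:ℝ) 1) :
    |(j / N : ℝ) + x * (((j + 1 : ℕ) : ℝ) / N - j / N) - j / N| ≤ 1 / N := by
  have hN' : (0:ℝ) < N := by exact_mod_cast hN
  have e : (j / N : ℝ) + x * (((j + 1 : ℕ) : ℝ) / N - j / N) - j / N = x * (1 / N) := by
    push_cast; field_simp; ring
  rw [e, abs_of_nonneg (by have := hx.1; positivity)]
  have : (0:ℝ) ≤ 1 / N := by positivity
  nlinarith [hx.2]

theorem exp_rot (w : ℂ) : exp (w - Real.pi / 2 * I) = -I * exp w := by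
  rw [exp_sub, exp_mul_I, cos_pi_div_two, sin_pi_div_two]
  simp [div_I]
  ring

theorem Arcs.count_σ (H : Arcs σ τ) {u δ : ℝ} {N : ℕ} (hN : 0 < N)
    (hf : ∀ s t : ℝ, |s - t| ≤ 1 / N → ‖τ s - τ t‖ < δ)
    (hd : δ ≤ |ya σ τ u|) (hδ : 0 < δ) :
    ∑ j ∈ Finset.range N, eps (Gf σ τ u (j / N : ℝ)) (Gf σ τ u ((j + 1 : ℕ) / N : ℝ)) =
      b (0 < ya σ τ u) := by
  unfold ya at hd ⊢
  set z := Cv (σ u) I with hzdef
  rw [mg_abs] at hd
  have hz : z ∉ Cu σ τ := (H.closed.notMem_iff_infDist_pos H.ne).2 (by linarith)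
  obtain ⟨n, hn⟩ := H.exW hz
  rw [← cast_eq_b H hz hn]
  obtain ⟨k, l, hk, hl, ek, el, e⟩ := hn
  have hG : ∀ v, exp (l v - Real.pi / 2 * I) = Gf σ τ u v := by
    intro v
    rw [exp_rot, el, Gf_eq]
  have hsum := tele (fun v => l v - Real.pi / 2 * I) hN (fun j hj => by
    have := log_step (g := fun t => τ t - z) (l := l) (by have := H.cτ; fun_prop) hl el
      (s := (j / N : ℝ)) (t := ((j + 1 : ℕ) / N : ℝ)) (fun x hx => by
        have h1 := hf _ _ (mid_step hN j hx)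
        have h2 : δ ≤ ‖τ (j / N : ℝ) - z‖ := by
          refine hd.trans ?_
          rw [← dist_eq_norm, dist_comm]
          exact infDist_le_dist_of_mem (mem_τ _)
        simp only [sub_sub_sub_cancel_right]
        linarith)
    simpa using this)
  simp only [hG] at hsum
  rw [hsum]
  have hre : z.re ≤ 0 := by
    rw [hzdef, Cv_re, I_re, I_im]
    have := (abs_le.1 (H.σi u)).2
    linarith
  have hconst := floor_const (ψ := fun t => (k t).im - Real.pi) (by fun_prop) (fun t => by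
    rintro ⟨-, h2⟩
    rw [Real.cos_sub_pi] at h2
    have h3 : (exp (k t)).re = (σ t).re - z.re := by rw [ek, sub_re]
    rw [exp_re] at h3
    have h4 := H.σre t
    have h5 := Real.exp_pos (k t).re
    nlinarith) 0 1
  have hfl : ∀ w : ℂ, fl (w - Real.pi / 2 * I) = ⌊(w.im - Real.pi) / (2 * Real.pi)⌋ := by
    intro w
    unfold fl
    congr 2
    simp
    ring
  have e01 : exp (l 0) = exp (k 1) := by
    rw [el, ek, H.τ0 0 le_rfl, H.σ1 1 le_rfl]
  obtain ⟨m, hm⟩ := exp_eq_exp_iff_exists_int.1 e01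
  have e10 : l 1 = k 0 + ((m + n : ℤ) : ℂ) * (2 * Real.pi * I) := by
    push_cast
    linear_combination e + hm
  have f0 : fl (l 0 - Real.pi / 2 * I) = fl (k 1 - Real.pi / 2 * I) + m := by
    rw [← fl_add, hm]; congr 1; ring
  have f1 : fl (l 1 - Real.pi / 2 * I) = fl (k 0 - Real.pi / 2 * I) + (m + n) := by
    rw [← fl_add, e10]; congr 1; ring
  have f2 : fl (k 0 - Real.pi / 2 * I) = fl (k 1 - Real.pi / 2 * I) := by
    rw [hfl, hfl]; exact hconst
  rw [f0, f1, f2]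
  congr 1
  ring

theorem Arcs.count_τ (H : Arcs σ τ) {v δ : ℝ} {N : ℕ} (hN : 0 < N)
    (hf : ∀ s t : ℝ, |s - t| ≤ 1 / N → ‖σ s - σ t‖ < δ)
    (hd : δ ≤ |xb σ τ v|) (hδ : 0 < δ) :
    ∑ i ∈ Finset.range N, eps (Gf σ τ (i / N : ℝ) v) (Gf σ τ ((i + 1 : ℕ) / N : ℝ) v) =
      b (0 < xb σ τ v) := by
  unfold xb at hd ⊢
  set z := Dv I (τ v) with hzdef
  rw [mg_abs] at hd
  have hz : z ∉ Cu σ τ := (H.closed.notMem_iff_infDist_pos H.ne).2 (by linarith)
  obtain ⟨n, hn⟩ := H.exW hz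
  rw [← cast_eq_b H hz hn]
  obtain ⟨k, l, hk, hl, ek, el, e⟩ := hn
  have hG : ∀ u, exp (k u) = Gf σ τ u v := by
    intro v
    rw [ek]; rfl
  have hsum := tele k hN (fun j hj => by
    have := log_step (g := fun t => σ t - z) (l := k) (by have := H.cσ; fun_prop) hk ek
      (s := (j / N : ℝ)) (t := ((j + 1 : ℕ) / N : ℝ)) (fun x hx => by
        have h1 := hf _ _ (mid_step hN j hx)
        have h2 : δ ≤ ‖σ (j / N : ℝ) - z‖ := by
          refine hd.trans ?_
          rw [← dist_eq_norm, dist_comm]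
          exact infDist_le_dist_of_mem (mem_σ _)
        simp only [sub_sub_sub_cancel_right]
        linarith)
    simpa using this)
  simp only [hG] at hsum
  rw [hsum]
  have hre : 0 ≤ z.re := by
    rw [hzdef, Dv_re, I_re, I_im]
    have := (abs_le.1 (H.τi v)).2
    linarith
  have hconst := floor_const (ψ := fun t => (l t).im - Real.pi / 2) (by fun_prop) (fun t => by
    rintro ⟨h2, -⟩
    rw [Real.sin_sub_pi_div_two] at h2
    have h3 : (exp (l t)).re = (τ t).re - z.re := by rw [el, sub_re]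
    rw [exp_re] at h3
    have h4 := H.τre t
    have h5 := Real.exp_pos (l t).re
    nlinarith) 0 1
  have e01 : exp (l 0) = exp (k 1) := by
    rw [el, ek, H.τ0 0 le_rfl, H.σ1 1 le_rfl]
  obtain ⟨m, hm⟩ := exp_eq_exp_iff_exists_int.1 e01
  have e10 : l 1 = k 0 + ((m + n : ℤ) : ℂ) * (2 * Real.pi * I) := by
    push_cast
    linear_combination e + hm
  have f0 : fl (l 0) = fl (k 1) + m := by
    rw [← fl_add, hm]
  have f1 : fl (l 1) = fl (k 0) + (m + n) := by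
    rw [← fl_add, e10]
  have f2 : fl (l 0) = fl (l 1) := hconst
  have : fl (k 1) - fl (k 0) = n := by linarith
  rw [this]

theorem Arcs.Vv0 (H : Arcs σ τ) (u u' : ℝ) : eps (Gf σ τ u 0) (Gf σ τ u' 0) = 0 := by
  unfold eps
  rw [b_false, zero_mul]
  unfold Gf
  rw [sub_im, Dv_im, H.τ0 0 le_rfl]
  have := (abs_le.1 (H.σi u)).2
  simp only [I_im, I_re]
  linarith

theorem Arcs.Vv1 (H : Arcs σ τ) (u u' : ℝ) : eps (Gf σ τ u 1) (Gf σ τ u' 1) = 0 := by
  unfold eps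
  rw [b_false, zero_mul]
  unfold Gf
  rw [sub_im, Dv_im, H.τ1 1 le_rfl]
  have := (abs_le.1 (H.σi u)).2
  simp only [I_im, I_re, neg_re]
  linarith

theorem Arcs.Hh0 (H : Arcs σ τ) (v v' : ℝ) : eps (Gf σ τ 0 v) (Gf σ τ 0 v') = 0 := by
  unfold eps
  rw [b_false (p := 0 < (Gf σ τ 0 v).re), b_false (p := 0 < (Gf σ τ 0 v').re), add_zero, mul_zero]
  all_goals
    unfold Gf
    rw [sub_re, Dv_re, H.σ0 0 le_rfl]
    simp only [I_im, I_re, neg_re]
  · have := (abs_le.1 (H.τi v')).2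
    linarith
  · have := (abs_le.1 (H.τi v)).2
    linarith

theorem Arcs.Hh1 (H : Arcs σ τ) (v v' : ℝ) : eps (Gf σ τ 1 v) (Gf σ τ 1 v') = 0 := by
  unfold eps
  rw [b_false (p := 0 < (Gf σ τ 1 v).re), b_false (p := 0 < (Gf σ τ 1 v').re), add_zero, mul_zero]
  all_goals
    unfold Gf
    rw [sub_re, Dv_re, H.σ1 1 le_rfl]
    simp only [I_im, I_re]
  · have := (abs_le.1 (H.τi v')).2
    linarith
  · have := (abs_le.1 (H.τi v)).2
    linarith

end Pool.Agent.H763R2.Dm
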