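import Pool.Agent.H763R2.Dm.Core
import Pool.Agent.H763R2.Sq.Arcs

/-! From Jordan curves to pairs of arcs. -/

set_option autoImplicit false
open Complex Set Topology Metric

namespace Pool.Agent.H763R2.Dm

open Sq (Outer)

theorem two_arcs {γ : Circle → ℂ} (hγ : Continuous γ) (hinj : Function.Injective γ) {P Q : ℂ}
    (hP : P ∈ range γ) (hQ : Q ∈ range γ) (hPQ : P ≠ Q) :
    ∃ f g : ℝ → ℂ, Continuous f ∧ Continuous g ∧ f 0 = P ∧ f 1 = Q ∧ g 0 = Q ∧ g 1 = P ∧
      (∀ t, f t ∈ range γ) ∧ (∀ t, g t ∈ range γ) ∧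
      (∀ z ∈ range γ, (∃ t ∈ Icc (0:ℝ) 1, f t = z) ∨ ∃ t ∈ Icc (0:ℝ) 1, g t = z) ∧
      (∀ t ∈ Ioo (0:ℝ) 1, f t ≠ P ∧ f t ≠ Q) ∧ ∀ t ∈ Ioo (0:ℝ) 1, g t ≠ P ∧ g t ≠ Q := by
  obtain ⟨p, rfl⟩ := hP
  obtain ⟨q, rfl⟩ := hQ
  have hpi := Real.pi_pos
  have hpq : p ≠ q := fun h => hPQ (congrArg γ h)
  obtain ⟨a, ha⟩ := Circle.exp_surjective (p⁻¹ * q)
  -- normalise the argument
  obtain ⟨s, s0, s1, hs⟩ : ∃ s : ℝ, 0 < s ∧ s < 2 * Real.pi ∧ Circle.exp s = p⁻¹ * q := by
    set m := ⌊a / (2 * Real.pi)⌋ with hm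
    set y := a - m * (2 * Real.pi) with hy
    have f0 : 0 ≤ y := by
      have := Int.floor_le (a / (2 * Real.pi))
      rw [le_div_iff₀ (by positivity)] at this
      linarith
    have f1 : y < 2 * Real.pi := by
      have := Int.lt_floor_add_one (a / (2 * Real.pi))
      rw [div_lt_iff₀ (by positivity)] at this
      simp only [← hm] at this
      linarith
    have hye : Circle.exp y = p⁻¹ * q := by
      rw [← ha, Circle.exp_eq_exp]
      exact ⟨-m, by push_cast; rw [hy]; ring⟩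
    refine ⟨y, lt_of_le_of_ne f0 (fun h => hpq ?_), f1, hye⟩
    rw [← h, Circle.exp_zero] at hye
    exact (inv_mul_eq_one.1 hye.symm)
  have hE : Continuous fun t : ℝ => γ (p * Circle.exp t) :=
    hγ.comp (continuous_const.mul Circle.exp.continuous)
  have e0 : γ (p * Circle.exp 0) = γ p := by rw [Circle.exp_zero, mul_one]
  have es : γ (p * Circle.exp s) = γ q := by rw [hs, mul_inv_cancel_left]
  have e2 : γ (p * Circle.exp (2 * Real.pi)) = γ p := by rw [Circle.exp_two_pi, mul_one]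
  have key : ∀ x y : ℝ, 0 ≤ x → x < 2 * Real.pi → 0 ≤ y → y < 2 * Real.pi →
      γ (p * Circle.exp x) = γ (p * Circle.exp y) → x = y := by
    intro x y x0 x1 y0 y1 h
    exact Circle.exp_injOn_Ico (a := 0) (b := 2 * Real.pi) (by linarith) ⟨x0, x1⟩ ⟨y0, y1⟩
      (mul_left_cancel (hinj h))
  refine ⟨fun t => γ (p * Circle.exp (t * s)),
    fun t => γ (p * Circle.exp (s + t * (2 * Real.pi - s))),
    hE.comp (by fun_prop), hE.comp (by fun_prop), ?_, ?_, ?_, ?_, fun t => mem_range_self _,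
    fun t => mem_range_self _, ?_, ?_, ?_⟩
  · simp only [zero_mul]; exact e0
  · simp only [one_mul]; exact es
  · simp only [zero_mul, add_zero]; exact es
  · simp only [one_mul, add_sub_cancel]; exact e2
  · rintro _ ⟨w, rfl⟩
    obtain ⟨a', ha'⟩ := Circle.exp_surjective (p⁻¹ * w)
    set m := ⌊a' / (2 * Real.pi)⌋ with hm
    set y := a' - m * (2 * Real.pi) with hy
    have f0 : 0 ≤ y := by
      have := Int.floor_le (a' / (2 * Real.pi))
      rw [le_div_iff₀ (by positivity)] at this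
      linarith
    have f1 : y < 2 * Real.pi := by
      have := Int.lt_floor_add_one (a' / (2 * Real.pi))
      rw [div_lt_iff₀ (by positivity)] at this
      simp only [← hm] at this
      linarith
    have hye : Circle.exp y = p⁻¹ * w := by
      rw [← ha', Circle.exp_eq_exp]
      exact ⟨-m, by push_cast; rw [hy]; ring⟩
    rcases le_total y s with h | h
    · left
      refine ⟨y / s, ⟨by positivity, by rw [div_le_one s0]; exact h⟩, ?_⟩
      simp only
      rw [div_mul_cancel₀ _ s0.ne', hye, mul_inv_cancel_left]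
    · right
      have h2 : 0 < 2 * Real.pi - s := by linarith
      refine ⟨(y - s) / (2 * Real.pi - s), ⟨div_nonneg (by linarith) h2.le, by
        rw [div_le_one h2]; linarith⟩, ?_⟩
      simp only
      rw [div_mul_cancel₀ _ h2.ne', add_sub_cancel, hye, mul_inv_cancel_left]
  · rintro t ⟨t0, t1⟩
    refine ⟨fun h => ?_, fun h => ?_⟩
    · have := key (t * s) 0 (by positivity) (by nlinarith) le_rfl (by positivity)
        (by rw [e0]; exact h)
      have h3 : 0 < t * s := by positivity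
      linarith
    · have := key (t * s) s (by positivity) (by nlinarith) s0.le s1 (by rw [es]; exact h)
      nlinarith
  · rintro t ⟨t0, t1⟩
    have h2 : 0 < 2 * Real.pi - s := by linarith
    have h4 : 0 < t * (2 * Real.pi - s) := by positivity
    have h5 : t * (2 * Real.pi - s) < 2 * Real.pi - s := by nlinarith
    refine ⟨fun h => ?_, fun h => ?_⟩
    · have := key (s + t * (2 * Real.pi - s)) 0 (by linarith) (by linarith) le_rfl
        (by positivity) (by rw [e0]; exact h)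
      linarith
    · have := key (s + t * (2 * Real.pi - s)) s (by linarith) (by linarith) s0.le s1
        (by rw [es]; exact h)
      linarith

/-- constant sign of the real part along an open arc avoiding the imaginary axis -/
theorem sign_arc {f : ℝ → ℂ} (hf : Continuous f) (h : ∀ t ∈ Ioo (0:ℝ) 1, (f t).re ≠ 0) :
    (∀ t ∈ Ioo (0:ℝ) 1, 0 < (f t).re) ∨ ∀ t ∈ Ioo (0:ℝ) 1, (f t).re < 0 := by
  by_cases h1 : ∀ t ∈ Ioo (0:ℝ) 1, 0 < (f t).re
  · exact Or.inl h1
  right
  push Not at h1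
  obtain ⟨s, hs, hs'⟩ := h1
  intro t ht
  by_contra hc
  push Not at hc
  obtain ⟨x, hx, hx0⟩ := isPreconnected_Ioo.intermediate_value hs ht
    (continuous_re.comp hf).continuousOn (show (0:ℝ) ∈ Icc _ _ from ⟨hs', hc⟩)
  exact h x hx hx0

/-- the arcs structure from two arcs -/
theorem mkArcs {f g : ℝ → ℂ} (hf : Continuous f) (hg : Continuous g) (f0 : f 0 = -I) (f1 : f 1 = I)
    (g0 : g 0 = I) (g1 : g 1 = -I) (hfp : ∀ t ∈ Ioo (0:ℝ) 1, 0 < (f t).re)
    (hgn : ∀ t ∈ Ioo (0:ℝ) 1, (g t).re < 0) (hfi : ∀ t, |(f t).im| ≤ 1)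
    (hgi : ∀ t, |(g t).im| ≤ 1) :
    Arcs (fun t => f (max 0 (min 1 t))) (fun t => g (max 0 (min 1 t))) where
  cσ := by fun_prop
  cτ := by fun_prop
  σ0 u hu := by
    rw [min_eq_right (by linarith), max_eq_left hu, f0]
  σ1 u hu := by
    rw [min_eq_left hu, max_eq_right zero_le_one, f1]
  τ0 u hu := by
    rw [min_eq_right (by linarith), max_eq_left hu, g0]
  τ1 u hu := by
    rw [min_eq_left hu, max_eq_right zero_le_one, g1]
  σp u hu := by
    rw [min_eq_right hu.2.le, max_eq_right hu.1.le]; exact hfp u hu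
  τn u hu := by
    rw [min_eq_right hu.2.le, max_eq_right hu.1.le]; exact hgn u hu
  σi u := hfi _
  τi u := hgi _

theorem jordan {γ : Circle → ℂ} (hγ : Continuous γ) (hinj : Function.Injective γ)
    (hstrip : ∀ z ∈ range γ, |z.im| ≤ 1)
    (hseg : ∀ y : ℝ, -1 < y → y < 1 → (y * I : ℂ) ∉ range γ ∧
      Bornology.IsBounded (connectedComponentIn (range γ)ᶜ (y * I : ℂ)))
    {κ ε κ' r : ℝ} (κ0 : 0 ≤ κ) (κ1 : κ ≤ 1) (hε : 0 < ε)
    (hQ : ∀ z ∈ range γ, ‖z - I‖ < ε →
      z.re ≤ -((1 - κ) * (1 - z.im)) ∨ κ * (1 - z.im) ≤ z.re)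
    (κ0' : 0 ≤ κ') (κ1' : κ' ≤ 1) (hr : 0 < r)
    (hP : ∀ z ∈ range γ, ‖z + I‖ < r →
      z.re ≤ -((1 - κ') * (1 + z.im)) ∨ κ' * (1 + z.im) ≤ z.re) :
    ∃ z w : ℂ, w ≠ 0 ∧ z ∈ range γ ∧ z + w ∈ range γ ∧
      z + w + I * w ∈ range γ ∧ z + I * w ∈ range γ := by
  have hcl : IsClosed (range γ) := (isCompact_range hγ).isClosed
  have hout : ∀ y : ℝ, 1 < |y| → (y * I : ℂ) ∈ Outer (range γ) := by
    intro y hy
    rcases lt_abs.1 hy with h | h
    · refine Sq.outer_of_ray (d := I) I_ne_zero (fun s hs hm => ?_)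
      have := (abs_le.1 (hstrip _ hm)).2
      simp at this
      linarith
    · refine Sq.outer_of_ray (d := -I) (neg_ne_zero.2 I_ne_zero) (fun s hs hm => ?_)
      have := (abs_le.1 (hstrip _ hm)).1
      simp at this
      linarith
  have hin : ∀ y : ℝ, -1 < y → y < 1 → (y * I : ℂ) ∉ Outer (range γ) :=
    fun y h1 h2 h => h.2 (hseg y h1 h2).2
  have hI : I ∈ range γ := by
    refine Sq.mem_of_adj hcl (fun s hs => ?_)
    set s' := min s 1 / 2 with hs'
    have p1 : 0 < s' := by positivity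
    have p2 : s' < s := by
      have := min_le_left s 1
      have : 0 < min s 1 := by positivity
      linarith
    have p3 : s' < 1 := by
      have := min_le_right s 1
      linarith
    refine ⟨((1 - s' : ℝ) : ℂ) * I, ?_, ((1 + s' : ℝ) : ℂ) * I, ?_, hin _ (by linarith)
      (by linarith), hout _ ?_⟩
    · rw [mem_ball, dist_eq_norm, show ((1 - s' : ℝ) : ℂ) * I - I = -((s' : ℝ) * I) by
        push_cast; ring, norm_neg, norm_mul, norm_I, norm_real, Real.norm_of_nonneg p1.le]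
      linarith
    · rw [mem_ball, dist_eq_norm, show ((1 + s' : ℝ) : ℂ) * I - I = ((s' : ℝ) * I) by
        push_cast; ring, norm_mul, norm_I, norm_real, Real.norm_of_nonneg p1.le]
      linarith
    · rw [abs_of_pos (by linarith)]; linarith
  have hnI : -I ∈ range γ := by
    refine Sq.mem_of_adj hcl (fun s hs => ?_)
    set s' := min s 1 / 2 with hs'
    have p1 : 0 < s' := by positivity
    have p2 : s' < s := by
      have := min_le_left s 1
      have : 0 < min s 1 := by positivity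
      linarith
    have p3 : s' < 1 := by
      have := min_le_right s 1
      linarith
    refine ⟨((-1 + s' : ℝ) : ℂ) * I, ?_, ((-1 - s' : ℝ) : ℂ) * I, ?_, hin _ (by linarith)
      (by linarith), hout _ ?_⟩
    · rw [mem_ball, dist_eq_norm, show ((-1 + s' : ℝ) : ℂ) * I - -I = ((s' : ℝ) * I) by
        push_cast; ring, norm_mul, norm_I, norm_real, Real.norm_of_nonneg p1.le]
      linarith
    · rw [mem_ball, dist_eq_norm, show ((-1 - s' : ℝ) : ℂ) * I - -I = -((s' : ℝ) * I) by
        push_cast; ring, norm_neg, norm_mul, norm_I, norm_real, Real.norm_of_nonneg p1.le]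
      linarith
    · rw [abs_of_neg (by linarith)]; linarith
  obtain ⟨f, g, cf, cg, f0, f1, g0, g1, fr, gr, hcov, fne, gne⟩ :=
    two_arcs hγ hinj hnI hI nI_ne_I
  have hre : ∀ z ∈ range γ, z ≠ -I → z ≠ I → z.re ≠ 0 := by
    intro z hz h1 h2 h0
    have hi := abs_le.1 (hstrip z hz)
    have e : z = (z.im : ℂ) * I := Complex.ext (by simp [h0]) (by simp)
    have i1 : z.im ≠ 1 := fun h => h2 (by rw [e, h]; simp)
    have i2 : z.im ≠ -1 := fun h => h1 (by rw [e, h]; simp)
    refine (hseg z.im (lt_of_le_of_ne hi.1 (Ne.symm i2)) (lt_of_le_of_ne hi.2 i1)).1 ?_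
    rw [← e]; exact hz
  have hf := sign_arc cf (fun t ht => hre _ (fr t) (fne t ht).1 (fne t ht).2)
  have hg := sign_arc cg (fun t ht => hre _ (gr t) (gne t ht).1 (gne t ht).2)
  have h01 : ∀ {t : ℝ}, t ∈ Icc (0:ℝ) 1 → t = 0 ∨ t = 1 ∨ t ∈ Ioo (0:ℝ) 1 := by
    intro t ht
    rcases lt_or_eq_of_le ht.1 with h | h
    · rcases lt_or_eq_of_le ht.2 with h' | h'
      · exact Or.inr (Or.inr ⟨h, h'⟩)
      · exact Or.inr (Or.inl h')
    · exact Or.inl h.symm
  have notboth1 : ¬ ((∀ t ∈ Ioo (0:ℝ) 1, 0 < (f t).re) ∧ ∀ t ∈ Ioo (0:ℝ) 1, 0 < (g t).re) := by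
    rintro ⟨h1, h2⟩
    have hz0 : ((0:ℝ) * I : ℂ) ∈ Outer (range γ) := by
      refine Sq.outer_of_ray (d := -1) (by norm_num) (fun s hs hm => ?_)
      have hre' : ∀ z ∈ range γ, 0 ≤ z.re := by
        intro z hz
        rcases hcov z hz with ⟨t, ht, rfl⟩ | ⟨t, ht, rfl⟩
        · rcases h01 ht with rfl | rfl | h
          · rw [f0]; simp
          · rw [f1]; simp
          · exact (h1 t h).le
        · rcases h01 ht with rfl | rfl | h
          · rw [g0]; simp
          · rw [g1]; simp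
          · exact (h2 t h).le
      have h3 := hre' _ hm
      simp at h3
      have h4 : s = 0 := le_antisymm h3 hs
      rw [h4] at hm
      exact (hseg 0 (by norm_num) (by norm_num)).1 (by simpa using hm)
    exact hin 0 (by norm_num) (by norm_num) hz0
  have notboth2 : ¬ ((∀ t ∈ Ioo (0:ℝ) 1, (f t).re < 0) ∧ ∀ t ∈ Ioo (0:ℝ) 1, (g t).re < 0) := by
    rintro ⟨h1, h2⟩
    have hz0 : ((0:ℝ) * I : ℂ) ∈ Outer (range γ) := by
      refine Sq.outer_of_ray (d := 1) (by norm_num) (fun s hs hm => ?_)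
      have hre' : ∀ z ∈ range γ, z.re ≤ 0 := by
        intro z hz
        rcases hcov z hz with ⟨t, ht, rfl⟩ | ⟨t, ht, rfl⟩
        · rcases h01 ht with rfl | rfl | h
          · rw [f0]; simp
          · rw [f1]; simp
          · exact (h1 t h).le
        · rcases h01 ht with rfl | rfl | h
          · rw [g0]; simp
          · rw [g1]; simp
          · exact (h2 t h).le
      have h3 := hre' _ hm
      simp at h3
      have h4 : s = 0 := le_antisymm h3 hs
      rw [h4] at hm
      exact (hseg 0 (by norm_num) (by norm_num)).1 (by simpa using hm)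
    exact hin 0 (by norm_num) (by norm_num) hz0
  have final : ∀ {f g : ℝ → ℂ}, Continuous f → Continuous g → f 0 = -I → f 1 = I → g 0 = I →
      g 1 = -I → (∀ t ∈ Ioo (0:ℝ) 1, 0 < (f t).re) → (∀ t ∈ Ioo (0:ℝ) 1, (g t).re < 0) →
      (∀ t, f t ∈ range γ) → (∀ t, g t ∈ range γ) →
      ∃ z w : ℂ, w ≠ 0 ∧ z ∈ range γ ∧ z + w ∈ range γ ∧
      z + w + I * w ∈ range γ ∧ z + I * w ∈ range γ := by
    intro f g cf cg f0 f1 g0 g1 hf hg fr gr
    have H := mkArcs cf cg f0 f1 g0 g1 hf hg (fun t => hstrip _ (fr t)) (fun t => hstrip _ (gr t))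
    have hsub : Cu (fun t => f (max 0 (min 1 t))) (fun t => g (max 0 (min 1 t))) ⊆ range γ := by
      rintro z (⟨t, rfl⟩ | ⟨t, rfl⟩)
      · exact fr _
      · exact gr _
    by_contra hno
    refine H.core (κ := κ) (ε := min ε 1) (κ' := κ') (r := min r 1) κ0 κ1 (by positivity)
      (min_le_right _ _) ?_ κ0' κ1' (by positivity) (min_le_right _ _) ?_ ?_
    · intro z hz hn
      exact hQ z (hsub hz) (lt_of_lt_of_le hn (min_le_left _ _))
    · intro z hz hn
      exact hP z (hsub hz) (lt_of_lt_of_le hn (min_le_left _ _))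
    · rintro ⟨z, w, hw, h1, h2, h3, h4⟩
      exact hno ⟨z, w, hw, hsub h1, hsub h2, hsub h3, hsub h4⟩
  rcases hf with hf | hf
  · rcases hg with hg | hg
    · exact absurd ⟨hf, hg⟩ notboth1
    · exact final cf cg f0 f1 g0 g1 hf hg fr gr
  · rcases hg with hg | hg
    · refine final (f := fun t => g (1 - t)) (g := fun t => f (1 - t)) (by fun_prop)
        (by fun_prop) (by simpa using g1) (by simpa using g0) (by simpa using f1)
        (by simpa using f0) (fun t ht => hg _ ⟨by linarith [ht.2], by linarith [ht.1]⟩)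
        (fun t ht => hf _ ⟨by linarith [ht.2], by linarith [ht.1]⟩) (fun t => gr _)
        (fun t => fr _)
    · exact absurd ⟨hf, hg⟩ notboth2

end Pool.Agent.H763R2.Dm
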