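import Pool.Agent.H763R2.Dm.Cpt

/-! The two-parameter lifting argument. -/

set_option autoImplicit false
open Complex Set Topology Metric

namespace Pool.Agent.H763R2.Dm

open Sq (Dv Cv Dv_re Dv_im Cv_re Cv_im)

variable {σ τ : ℝ → ℂ}

theorem gap_le {f : ℝ → ℝ} (hf : Continuous f) {a c lo hi : ℝ} (hac : a ≤ c) (hlh : lo < hi)
    (h : ∀ t ∈ Icc a c, ¬ (lo < f t ∧ f t < hi)) (h0 : f a ≤ lo) : f c ≤ lo := by
  by_contra hc
  push Not at hc
  have hi' : hi ≤ f c := by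
    by_contra h'
    push Not at h'
    exact h c ⟨hac, le_rfl⟩ ⟨hc, h'⟩
  obtain ⟨t, ht, hft⟩ := intermediate_value_Icc hac hf.continuousOn
    (show (lo + hi) / 2 ∈ Icc (f a) (f c) from ⟨by linarith, by linarith⟩)
  exact h t ht ⟨by linarith, by linarith⟩

theorem gap_ge {f : ℝ → ℝ} (hf : Continuous f) {a c lo hi : ℝ} (hac : a ≤ c) (hlh : lo < hi)
    (h : ∀ t ∈ Icc a c, ¬ (lo < f t ∧ f t < hi)) (h0 : hi ≤ f a) : hi ≤ f c := by
  have := gap_le (f := fun t => - f t) hf.neg hac (neg_lt_neg hlh)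
    (fun t ht h' => h t ht ⟨by linarith [h'.2], by linarith [h'.1]⟩) (by linarith)
  linarith

/-- clamped first coordinate -/
noncomputable def hc (h0 h : ℝ) : ℝ := max h0 (min 1 h)
/-- clamped second coordinate -/
noncomputable def lc (l : ℝ) : ℝ := max (-1) (min 1 l)
noncomputable def Uu (h0 : ℝ) (p : ℝ × ℝ) : ℝ := 1 - hc h0 p.1 * min 1 (1 - lc p.2)
noncomputable def Vw (h0 : ℝ) (p : ℝ × ℝ) : ℝ := hc h0 p.1 * min 1 (1 + lc p.2)
noncomputable def et (r : ℝ) (A B : ℂ) : ℝ := max 0 (r - ‖A + I‖ - ‖B + I‖)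

theorem hc_cont (h0 : ℝ) : Continuous (hc h0) := by unfold hc; fun_prop
theorem lc_cont : Continuous lc := by unfold lc; fun_prop
theorem Uu_cont (h0 : ℝ) : Continuous (Uu h0) := by
  have := hc_cont h0
  have := lc_cont
  unfold Uu; fun_prop
theorem Vw_cont (h0 : ℝ) : Continuous (Vw h0) := by
  have := hc_cont h0
  have := lc_cont
  unfold Vw; fun_prop

theorem hc_mem {h0 : ℝ} (h1 : h0 ≤ 1) (h : ℝ) : h0 ≤ hc h0 h ∧ hc h0 h ≤ 1 :=
  ⟨le_max_left _ _, max_le h1 (min_le_left _ _)⟩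

theorem lc_mem (l : ℝ) : -1 ≤ lc l ∧ lc l ≤ 1 :=
  ⟨le_max_left _ _, max_le (by norm_num) (min_le_left _ _)⟩

theorem hc_eq {h0 h : ℝ} (h1 : h0 ≤ h) (h2 : h ≤ 1) : hc h0 h = h := by
  unfold hc; rw [min_eq_right h2, max_eq_right h1]

theorem lc_eq {l : ℝ} (h1 : -1 ≤ l) (h2 : l ≤ 1) : lc l = l := by
  unfold lc; rw [min_eq_right h2, max_eq_right h1]

theorem et_zero {r : ℝ} {A B : ℂ} (h : r ≤ ‖A + I‖ + ‖B + I‖) : et r A B = 0 := by
  unfold et; exact max_eq_left (by linarith)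

theorem et_nonneg {r : ℝ} {A B : ℂ} : 0 ≤ et r A B := le_max_left _ _

theorem norm_I_add_I : ‖I + I‖ = 2 := by
  rw [show I + I = 2 * I by ring, norm_mul, norm_I]; norm_num

theorem norm_add_I {A : ℂ} {s : ℝ} (h : ‖A - I‖ < s) : 2 - s < ‖A + I‖ := by
  have := norm_sub_le (A + I) (A - I)
  rw [show A + I - (A - I) = I + I by ring, norm_I_add_I] at this
  linarith

/-- first component -/
noncomputable def Fx (σ τ : ℝ → ℂ) (h0 r : ℝ) (p : ℝ × ℝ) : ℝ :=
  mg σ τ (Dv (σ (Uu h0 p)) (τ (Vw h0 p))) - et r (σ (Uu h0 p)) (τ (Vw h0 p))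
/-- second component -/
noncomputable def Fy (σ τ : ℝ → ℂ) (h0 r : ℝ) (p : ℝ × ℝ) : ℝ :=
  mg σ τ (Cv (σ (Uu h0 p)) (τ (Vw h0 p))) - et r (σ (Uu h0 p)) (τ (Vw h0 p))

theorem Arcs.Fx_cont (H : Arcs σ τ) (h0 r : ℝ) : Continuous (Fx σ τ h0 r) := by
  have h1 := H.mg_cont
  have h2 := H.cσ
  have h3 := H.cτ
  have h4 := Uu_cont h0
  have h5 := Vw_cont h0
  unfold Fx Sq.Dv et
  exact (h1.comp (by fun_prop)).sub (by fun_prop)

theorem Arcs.Fy_cont (H : Arcs σ τ) (h0 r : ℝ) : Continuous (Fy σ τ h0 r) := by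
  have h1 := H.mg_cont
  have h2 := H.cσ
  have h3 := H.cτ
  have h4 := Uu_cont h0
  have h5 := Vw_cont h0
  unfold Fy Sq.Cv et
  exact (h1.comp (by fun_prop)).sub (by fun_prop)

theorem Arcs.F_ne (H : Arcs σ τ) (nosq : NoSq (Cu σ τ)) {κ r : ℝ} (κ0 : 0 ≤ κ) (κ1 : κ ≤ 1)
    (hr0 : 0 < r) (hr : r ≤ 1) (hS : SecP σ τ κ r) {h0 : ℝ} (hh0 : 0 < h0) (hh1 : h0 < 1)
    (p : ℝ × ℝ) (hx : Fx σ τ h0 r p = 0) (hy : Fy σ τ h0 r p = 0) : False := by
  unfold Fx at hx
  unfold Fy at hy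
  set A := σ (Uu h0 p) with hA
  set B := τ (Vw h0 p) with hB
  rcases lt_or_eq_of_le (et_nonneg (r := r) (A := A) (B := B)) with h | h
  · have h2 : et r A B = r - ‖A + I‖ - ‖B + I‖ := by
      unfold et at h ⊢
      rcases max_choice 0 (r - ‖A + I‖ - ‖B + I‖) with h' | h'
      · rw [h'] at h; exact absurd h (lt_irrefl _)
      · exact h'
    have nA := norm_nonneg (A + I)
    have nB := norm_nonneg (B + I)
    exact H.p1 κ0 κ1 (H.secσ' κ1 hr hS (by rw [← hA]; linarith))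
      (H.secτ' κ0 hr hS (by rw [← hB]; linarith)) (by linarith) (by linarith)
  · rw [← h, sub_zero, H.mg_zero] at hx hy
    by_cases hAB : A = B
    · have hAr := H.σre (Uu h0 p)
      have hBr := H.τre (Vw h0 p)
      rw [← hA] at hAr
      rw [← hB] at hBr
      have hm := hc_mem hh1.le p.1
      rcases le_or_gt (Uu h0 p) 0 with hu | hu
      · have eA : A = -I := H.σ0 _ hu
        have : et r A B = r := by
          rw [← hAB, eA]; unfold et; simp [hr0.le]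
        linarith
      rcases le_or_gt 1 (Uu h0 p) with hu' | hu'
      · have eA : A = I := H.σ1 _ hu'
        have hv : Vw h0 p ≤ 0 := by
          by_contra hc
          push Not at hc
          exact H.τ_ne hc (by rw [← hB, ← hAB, eA])
        unfold Uu at hu'
        unfold Vw at hv
        have hpos : 0 < hc h0 p.1 := lt_of_lt_of_le hh0 hm.1
        have h3 : min 1 (1 - lc p.2) ≤ 0 := by
          by_contra hc'
          push Not at hc'
          nlinarith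
        have h4 : min 1 (1 + lc p.2) ≤ 0 := by
          by_contra hc'
          push Not at hc'
          nlinarith
        have h5 : 1 - lc p.2 ≤ 0 := by
          rcases min_le_iff.1 h3 with h | h
          · linarith
          · exact h
        have h6 : 1 + lc p.2 ≤ 0 := by
          rcases min_le_iff.1 h4 with h | h
          · linarith
          · exact h
        linarith
      · have := H.σp _ ⟨hu, hu'⟩
        rw [← hA, hAB] at this
        linarith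
    · refine nosq ⟨A, B - A, sub_ne_zero.2 (Ne.symm hAB), mem_σ _, ?_, ?_, ?_⟩
      · rw [add_sub_cancel]; exact mem_τ _
      · rw [add_sub_cancel]; exact hy
      · exact hx

theorem quad {x : ℝ} (h1 : Real.sin x ≤ 0) (h2 : Real.cos x ≤ 0) :
    ∃ m : ℤ, Real.pi ≤ x - m * (2 * Real.pi) ∧ x - m * (2 * Real.pi) ≤ 3 * Real.pi / 2 := by
  have hπ := Real.pi_pos
  set m := ⌊x / (2 * Real.pi)⌋ with hm
  set y := x - m * (2 * Real.pi) with hy
  have e1 : Real.cos x = Real.cos y := (Real.cos_sub_int_mul_two_pi _ _).symm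
  have e2 : Real.sin x = Real.sin y := (Real.sin_sub_int_mul_two_pi _ _).symm
  have f0 : 0 ≤ y := by
    have := Int.floor_le (x / (2 * Real.pi))
    rw [le_div_iff₀ (by positivity)] at this
    linarith
  have f1 : y < 2 * Real.pi := by
    have := Int.lt_floor_add_one (x / (2 * Real.pi))
    rw [div_lt_iff₀ (by positivity)] at this
    simp only [← hm] at this
    linarith
  rw [e2] at h1
  rw [e1] at h2
  refine ⟨m, ?_, ?_⟩
  · by_contra hc
    push Not at hc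
    rcases lt_or_eq_of_le f0 with h | h
    · linarith [Real.sin_pos_of_pos_of_lt_pi h hc]
    · rw [← h, Real.cos_zero] at h2
      linarith
  · by_contra hc
    push Not at hc
    have := Real.cos_pos_of_mem_Ioo (x := y - 2 * Real.pi) ⟨by linarith, by linarith⟩
    rw [Real.cos_sub_two_pi] at this
    linarith

theorem neg_quad {x : ℝ} (m : ℤ) (h1 : Real.pi < x - m * (2 * Real.pi))
    (h2 : x - m * (2 * Real.pi) < 3 * Real.pi / 2) : Real.cos x < 0 ∧ Real.sin x < 0 := by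
  have hπ := Real.pi_pos
  rw [← Real.cos_sub_int_mul_two_pi x m, ← Real.sin_sub_int_mul_two_pi x m]
  refine ⟨Real.cos_neg_of_pi_div_two_lt_of_lt (by linarith) (by linarith), ?_⟩
  rw [← Real.sin_sub_two_pi]
  exact Real.sin_neg_of_neg_of_neg_pi_lt (by linarith) (by linarith)

theorem Arcs.F_left (H : Arcs σ τ) {r h0 h : ℝ} (hr : r ≤ 1) (h1 : h0 ≤ h) (h2 : h ≤ 1) :
    Fx σ τ h0 r (h, -1) = xa σ τ (1 - h) ∧ Fy σ τ h0 r (h, -1) = ya σ τ (1 - h) := by
  have eU : Uu h0 (h, -1) = 1 - h := by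
    unfold Uu; simp only; rw [hc_eq h1 h2, lc_eq le_rfl (by norm_num)]
    rw [min_eq_left (by norm_num)]; ring
  have eV : Vw h0 (h, -1) = 0 := by
    unfold Vw; simp only; rw [hc_eq h1 h2, lc_eq le_rfl (by norm_num)]
    rw [min_eq_right (by norm_num)]; ring
  have e0 : et r (σ (1 - h)) I = 0 := by
    refine et_zero ?_
    rw [norm_I_add_I]
    have := norm_nonneg (σ (1 - h) + I)
    linarith
  unfold Fx Fy xa ya
  rw [eU, eV, H.τ0 0 le_rfl, e0, sub_zero, sub_zero]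
  exact ⟨rfl, rfl⟩

theorem Arcs.F_right (H : Arcs σ τ) {r h0 h : ℝ} (hr : r ≤ 1) (h1 : h0 ≤ h) (h2 : h ≤ 1) :
    Fx σ τ h0 r (h, 1) = xb σ τ h ∧ Fy σ τ h0 r (h, 1) = yb σ τ h := by
  have eU : Uu h0 (h, 1) = 1 := by
    unfold Uu; simp only; rw [hc_eq h1 h2, lc_eq (by norm_num) le_rfl]
    rw [min_eq_right (by norm_num)]; ring
  have eV : Vw h0 (h, 1) = h := by
    unfold Vw; simp only; rw [hc_eq h1 h2, lc_eq (by norm_num) le_rfl]
    rw [min_eq_left (by norm_num)]; ring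
  have e0 : et r I (τ h) = 0 := by
    refine et_zero ?_
    rw [norm_I_add_I]
    have := norm_nonneg (τ h + I)
    linarith
  unfold Fx Fy xb yb
  rw [eU, eV, H.σ1 1 le_rfl, e0, sub_zero, sub_zero]
  exact ⟨rfl, rfl⟩

theorem Arcs.F_top1 (H : Arcs σ τ) {r h0 l : ℝ} (hh1 : h0 ≤ 1) (h1 : -1 ≤ l) (h2 : l ≤ 0) :
    Fx σ τ h0 r (1, l) ≤ 0 := by
  have eU : Uu h0 (1, l) = 0 := by
    unfold Uu; simp only; rw [hc_eq hh1 le_rfl, lc_eq h1 (by linarith)]
    rw [min_eq_left (by linarith)]; ring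
  unfold Fx
  have := et_nonneg (r := r) (A := σ (Uu h0 (1, l))) (B := τ (Vw h0 (1, l)))
  have h3 : mg σ τ (Dv (σ (Uu h0 (1, l))) (τ (Vw h0 (1, l)))) ≤ 0 := by
    refine H.mg_bot ?_
    rw [Dv_im, eU, H.σ0 0 le_rfl]
    have := H.τre (Vw h0 (1, l))
    simp only [neg_im, I_im, neg_re, I_re]
    linarith
  linarith

theorem Arcs.F_top2 (H : Arcs σ τ) {r h0 l : ℝ} (hh1 : h0 ≤ 1) (h1 : 0 ≤ l) (h2 : l ≤ 1) :
    Fy σ τ h0 r (1, l) ≤ 0 := by
  have eV : Vw h0 (1, l) = 1 := by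
    unfold Vw; simp only; rw [hc_eq hh1 le_rfl, lc_eq (by linarith) h2]
    rw [min_eq_left (by linarith)]; ring
  unfold Fy
  have := et_nonneg (r := r) (A := σ (Uu h0 (1, l))) (B := τ (Vw h0 (1, l)))
  have h3 : mg σ τ (Cv (σ (Uu h0 (1, l))) (τ (Vw h0 (1, l)))) ≤ 0 := by
    refine H.mg_bot ?_
    rw [Cv_im, eV, H.τ1 1 le_rfl]
    have := H.σre (Uu h0 (1, l))
    simp only [neg_im, I_im, neg_re, I_re]
    linarith
  linarith

theorem Arcs.F_bot (H : Arcs σ τ) {κ ε : ℝ} (κ0 : 0 ≤ κ) (κ1 : κ ≤ 1)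
    (hε0 : 0 < ε) (hε : ε ≤ 1) (hS : SecQ σ τ κ ε) {r h0 : ℝ} (hr : r ≤ 1) (hh0 : 0 < h0)
    (hh1 : h0 ≤ 1)
    (hA : ∀ u, 1 - h0 ≤ u → ‖σ u - I‖ < ε / 3) (hB : ∀ v ≤ h0, ‖τ v - I‖ < ε / 3) (l : ℝ) :
    ¬ (Fx σ τ h0 r (h0, l) < 0 ∧ Fy σ τ h0 r (h0, l) < 0) := by
  have hl := lc_mem l
  have hU : 1 - h0 ≤ Uu h0 (h0, l) := by
    unfold Uu; simp only; rw [hc_eq le_rfl hh1]
    have : min 1 (1 - lc l) ≤ 1 := min_le_left _ _
    nlinarith
  have hV : Vw h0 (h0, l) ≤ h0 := by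
    unfold Vw; simp only; rw [hc_eq le_rfl hh1]
    have : min 1 (1 + lc l) ≤ 1 := min_le_left _ _
    nlinarith
  have a1 := hA _ hU
  have b1 := hB _ hV
  unfold Fx Fy
  set A := σ (Uu h0 (h0, l)) with hAdef
  set B := τ (Vw h0 (h0, l)) with hBdef
  have e0 : et r A B = 0 := by
    refine et_zero ?_
    have a2 := norm_add_I a1
    have := norm_nonneg (B + I)
    linarith
  rw [e0, sub_zero, sub_zero]
  have hi := H.σi (Uu h0 (h0, l))
  have hi' := H.τi (Vw h0 (h0, l))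
  rcases H.q1 κ0 κ1 hε hS a1 b1 (abs_le.1 hi).2 (abs_le.1 hi').2
    (H.secσ κ1 hε hS (by linarith)) (H.secτ κ0 hε hS (by linarith)) with h | h
  · rintro ⟨h1, -⟩; linarith
  · rintro ⟨-, h1⟩; linarith

theorem neg_iff {a c : ℝ} (h : 0 < a) : a * c < 0 ↔ c < 0 :=
  ⟨fun h' => by by_contra hc; push Not at hc; have := mul_nonneg h.le hc; linarith,
    fun h' => mul_neg_of_pos_of_neg h h'⟩

theorem Arcs.lift (H : Arcs σ τ) (nosq : NoSq (Cu σ τ)) {κ ε κ' r : ℝ} (κ0 : 0 ≤ κ) (κ1 : κ ≤ 1)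
    (hε0 : 0 < ε) (hε : ε ≤ 1) (hS : SecQ σ τ κ ε)
    (κ0' : 0 ≤ κ') (κ1' : κ' ≤ 1) (hr0 : 0 < r) (hr : r ≤ 1) (hS' : SecP σ τ κ' r)
    {h0 : ℝ} (hh0 : 0 < h0) (hh1 : h0 < 1)
    (hA : ∀ u, 1 - h0 ≤ u → ‖σ u - I‖ < ε / 3) (hB : ∀ v ≤ h0, ‖τ v - I‖ < ε / 3) :
    ∃ (n : ℤ) (θ θ' : ℝ → ℝ), Continuous θ ∧ Continuous θ' ∧
      (∀ h, h0 ≤ h → h ≤ 1 → (Real.cos (θ h) < 0 ↔ xa σ τ (1 - h) < 0) ∧
        (0 < Real.sin (θ h) ↔ 0 < ya σ τ (1 - h))) ∧
      (∀ h, h0 ≤ h → h ≤ 1 → (Real.sin (θ' h) < 0 ↔ yb σ τ h < 0) ∧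
        (0 < Real.cos (θ' h) ↔ 0 < xb σ τ h)) ∧
      (Real.pi ≤ θ 1 ∧ θ 1 ≤ 3 * Real.pi / 2) ∧ (Real.pi ≤ θ' 1 ∧ θ' 1 ≤ 3 * Real.pi / 2) ∧
      (-(Real.pi / 2) ≤ θ h0 - n * (2 * Real.pi) ∧ θ h0 - n * (2 * Real.pi) < Real.pi) ∧
      (-(Real.pi / 2) < θ' h0 - n * (2 * Real.pi) ∧ θ' h0 - n * (2 * Real.pi) ≤ Real.pi) := by
  have hπ := Real.pi_pos
  have cx := H.Fx_cont h0 r
  have cy := H.Fy_cont h0 r
  obtain ⟨K, hK, hKe⟩ := H777R2.exists_log (X := ℝ × ℝ)
    (g := fun p => (Fx σ τ h0 r p : ℂ) + Fy σ τ h0 r p * I) (by fun_prop) (fun p hp => by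
      have e1 := congrArg Complex.re hp
      have e2 := congrArg Complex.im hp
      simp at e1 e2
      exact H.F_ne nosq κ0' κ1' hr0 hr hS' hh0 hh1 p e1 e2)
  have hx0 : ∀ p, Fx σ τ h0 r p = Real.exp (K p).re * Real.cos (K p).im := by
    intro p
    have := congrArg Complex.re (hKe p)
    rw [exp_re] at this
    simpa using this.symm
  have hy0 : ∀ p, Fy σ τ h0 r p = Real.exp (K p).re * Real.sin (K p).im := by
    intro p
    have := congrArg Complex.im (hKe p)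
    rw [exp_im] at this
    simpa using this.symm
  have pe : ∀ p, 0 < Real.exp (K p).re := fun p => Real.exp_pos _
  obtain ⟨l1, l2⟩ := H.F_left (r := r) (h0 := h0) (h := 1) hr hh1.le le_rfl
  rw [sub_self] at l1 l2
  obtain ⟨r1, r2⟩ := H.F_right (r := r) (h0 := h0) (h := 1) hr hh1.le le_rfl
  have y1 : Fy σ τ h0 r (1, -1) ≤ 0 := by rw [l2]; exact H.ya0
  have x1 : Fx σ τ h0 r (1, 1) ≤ 0 := by rw [r1]; exact H.xb1
  have t1 := fun l => H.F_top1 (r := r) (h0 := h0) (l := l) hh1.le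
  have t2 := fun l => H.F_top2 (r := r) (h0 := h0) (l := l) hh1.le
  obtain ⟨m, m1, m2⟩ := quad (x := (K (1, -1)).im)
    (by have := hy0 (1, -1); have := pe (1, -1); nlinarith)
    (by have := hx0 (1, -1); have := pe (1, -1); have := t1 (-1) le_rfl (by norm_num); nlinarith)
  set θ : ℝ × ℝ → ℝ := fun p => (K p).im - m * (2 * Real.pi) with hθ
  have cθ : Continuous θ := by fun_prop
  have hx : ∀ p, Fx σ τ h0 r p = Real.exp (K p).re * Real.cos (θ p) := by
    intro p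
    rw [hx0, hθ]; simp only; rw [Real.cos_sub_int_mul_two_pi]
  have hy : ∀ p, Fy σ τ h0 r p = Real.exp (K p).re * Real.sin (θ p) := by
    intro p
    rw [hy0, hθ]; simp only; rw [Real.sin_sub_int_mul_two_pi]
  have sx : ∀ p, Fx σ τ h0 r p < 0 ↔ Real.cos (θ p) < 0 := fun p => by rw [hx, neg_iff (pe p)]
  have sy : ∀ p, Fy σ τ h0 r p < 0 ↔ Real.sin (θ p) < 0 := fun p => by rw [hy, neg_iff (pe p)]
  have px : ∀ p, 0 < Fx σ τ h0 r p ↔ 0 < Real.cos (θ p) :=
    fun p => by rw [hx, mul_pos_iff_of_pos_left (pe p)]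
  have py : ∀ p, 0 < Fy σ τ h0 r p ↔ 0 < Real.sin (θ p) :=
    fun p => by rw [hy, mul_pos_iff_of_pos_left (pe p)]
  have a1 : Real.pi ≤ θ (1, -1) := m1
  have a2 : θ (1, -1) ≤ 3 * Real.pi / 2 := m2
  have ctop : Continuous fun l : ℝ => θ (1, l) := by fun_prop
  have cbot : Continuous fun l : ℝ => θ (h0, l) := by fun_prop
  -- along the top
  have b2 : θ (1, 0) ≤ 3 * Real.pi / 2 :=
    gap_le (f := fun l => θ (1, l)) ctop (a := -1) (c := 0) (hi := 5 * Real.pi / 2) (by norm_num)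
      (by linarith) (fun t ht h => by
        have := Real.cos_pos_of_mem_Ioo (x := θ (1, t) - 2 * Real.pi)
          ⟨by linarith [h.1], by linarith [h.2]⟩
        rw [Real.cos_sub_two_pi, ← px] at this
        linarith [t1 t ht.1 ht.2]) a2
  have b1 : Real.pi / 2 ≤ θ (1, 0) :=
    gap_ge (f := fun l => θ (1, l)) ctop (a := -1) (c := 0) (lo := -(Real.pi / 2)) (by norm_num)
      (by linarith) (fun t ht h => by
        have := Real.cos_pos_of_mem_Ioo (x := θ (1, t)) ⟨by linarith [h.1], by linarith [h.2]⟩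
        rw [← px] at this
        linarith [t1 t ht.1 ht.2]) (by linarith)
  have b3 : Real.pi ≤ θ (1, 0) := by
    by_contra hc
    push Not at hc
    have := Real.sin_pos_of_pos_of_lt_pi (x := θ (1, 0)) (by linarith) hc
    rw [← py] at this
    linarith [t2 0 le_rfl zero_le_one]
  have c2 : θ (1, 1) ≤ 2 * Real.pi :=
    gap_le (f := fun l => θ (1, l)) ctop (a := 0) (c := 1) (hi := 3 * Real.pi) (by norm_num)
      (by linarith) (fun t ht h => by
        have := Real.sin_pos_of_pos_of_lt_pi (x := θ (1, t) - 2 * Real.pi)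
          (by linarith [h.1]) (by linarith [h.2])
        rw [Real.sin_sub_two_pi, ← py] at this
        linarith [t2 t ht.1 ht.2]) (by linarith)
  have c1 : Real.pi ≤ θ (1, 1) :=
    gap_ge (f := fun l => θ (1, l)) ctop (a := 0) (c := 1) (lo := 0) (by norm_num)
      (by linarith) (fun t ht h => by
        have := Real.sin_pos_of_pos_of_lt_pi (x := θ (1, t)) h.1 h.2
        rw [← py] at this
        linarith [t2 t ht.1 ht.2]) b3
  have c3 : θ (1, 1) ≤ 3 * Real.pi / 2 := by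
    by_contra hc
    push Not at hc
    have := Real.cos_pos_of_mem_Ioo (x := θ (1, 1) - 2 * Real.pi) ⟨by linarith, by linarith⟩
    rw [Real.cos_sub_two_pi, ← px] at this
    linarith
  -- bottom left corner
  obtain ⟨l3, l4⟩ := H.F_left (r := r) (h0 := h0) (h := h0) hr le_rfl hh1.le
  obtain ⟨r3, r4⟩ := H.F_right (r := r) (h0 := h0) (h := h0) hr le_rfl hh1.le
  have hbot := H.F_bot κ0 κ1 hε0 hε hS hr hh0 hh1.le hA hB
  have q2 : Real.cos (θ (h0, -1)) < 0 → 0 < Real.sin (θ (h0, -1)) := by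
    intro h
    rw [← sx, l3] at h
    rw [← py, l4]
    exact H.q2 κ0 κ1 hε hS (hA _ le_rfl) (abs_le.1 (H.σi _)).2
      (H.secσ κ1 hε hS (by have := hA (1 - h0) le_rfl; linarith)) h
  have q3 : Real.sin (θ (h0, 1)) < 0 → 0 < Real.cos (θ (h0, 1)) := by
    intro h
    rw [← sy, r4] at h
    rw [← px, r3]
    exact H.q3 κ0 κ1 hε hS (hB _ le_rfl) (abs_le.1 (H.τi _)).2
      (H.secτ κ0 hε hS (by have := hB h0 le_rfl; linarith)) h
  obtain ⟨n, n1, n2⟩ : ∃ n : ℤ, -(Real.pi / 2) ≤ θ (h0, -1) - n * (2 * Real.pi) ∧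
      θ (h0, -1) - n * (2 * Real.pi) < Real.pi := by
    set x := θ (h0, -1) with hxdef
    set n := ⌊(x + Real.pi) / (2 * Real.pi)⌋ with hn
    have f0 : -Real.pi ≤ x - n * (2 * Real.pi) := by
      have := Int.floor_le ((x + Real.pi) / (2 * Real.pi))
      rw [le_div_iff₀ (by positivity)] at this
      linarith
    have f1 : x - n * (2 * Real.pi) < Real.pi := by
      have := Int.lt_floor_add_one ((x + Real.pi) / (2 * Real.pi))
      rw [div_lt_iff₀ (by positivity)] at this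
      simp only [← hn] at this
      linarith
    refine ⟨n, ?_, f1⟩
    by_contra hc
    push Not at hc
    rw [← Real.cos_sub_int_mul_two_pi x n, ← Real.sin_sub_int_mul_two_pi x n] at q2
    set y := x - n * (2 * Real.pi)
    have g1 : Real.cos y < 0 := by
      rw [← Real.cos_neg]
      exact Real.cos_neg_of_pi_div_two_lt_of_lt (by linarith) (by linarith)
    have g2 := q2 g1
    have g3 : Real.sin (-y) < 0 := by rw [Real.sin_neg]; linarith
    have g4 := Real.sin_nonneg_of_nonneg_of_le_pi (x := -y) (by linarith) (by linarith)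
    linarith
  have d2 : θ (h0, 1) ≤ Real.pi + n * (2 * Real.pi) :=
    gap_le (f := fun l => θ (h0, l)) cbot (a := -1) (c := 1)
      (hi := 3 * Real.pi / 2 + n * (2 * Real.pi)) (by norm_num)
      (by linarith) (fun t ht h => by
        obtain ⟨g1, g2⟩ := neg_quad (x := θ (h0, t)) n (by linarith [h.1]) (by linarith [h.2])
        rw [← sx] at g1
        rw [← sy] at g2
        exact hbot t ⟨g1, g2⟩) (by linarith)
  have d1 : -(Real.pi / 2) + n * (2 * Real.pi) ≤ θ (h0, 1) :=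
    gap_ge (f := fun l => θ (h0, l)) cbot (a := -1) (c := 1)
      (lo := -Real.pi + n * (2 * Real.pi)) (by norm_num)
      (by linarith) (fun t ht h => by
        obtain ⟨g1, g2⟩ := neg_quad (x := θ (h0, t)) (n - 1)
          (by push_cast; linarith [h.1]) (by push_cast; linarith [h.2])
        rw [← sx] at g1
        rw [← sy] at g2
        exact hbot t ⟨g1, g2⟩) (by linarith)
  refine ⟨n, fun h => θ (h, -1), fun h => θ (h, 1), by fun_prop, by fun_prop, ?_, ?_,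
    ⟨a1, a2⟩, ⟨c1, c3⟩, ⟨n1, n2⟩, ⟨?_, by linarith⟩⟩
  · intro h h1 h2
    obtain ⟨g1, g2⟩ := H.F_left (r := r) (h0 := h0) (h := h) hr h1 h2
    rw [← g1, ← g2]
    exact ⟨(sx _).symm, (py _).symm⟩
  · intro h h1 h2
    obtain ⟨g1, g2⟩ := H.F_right (r := r) (h0 := h0) (h := h) hr h1 h2
    rw [← g1, ← g2]
    exact ⟨(sy _).symm, (px _).symm⟩
  · simp only
    rcases lt_or_eq_of_le (show -(Real.pi / 2) ≤ θ (h0, 1) - n * (2 * Real.pi) by linarith)
      with h | h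
    · exact h
    · exfalso
      rw [← Real.cos_sub_int_mul_two_pi (θ (h0, 1)) n,
        ← Real.sin_sub_int_mul_two_pi (θ (h0, 1)) n, ← h, Real.sin_neg, Real.cos_neg,
        Real.sin_pi_div_two, Real.cos_pi_div_two] at q3
      exact lt_irrefl _ (q3 (by norm_num))

end Pool.Agent.H763R2.Dm
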