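import Pool.Agent.H763R2.Dm.W
import Pool.Agent.H763R2.Sq.Tri

/-! The signed distance function given by the parity of the winding number. -/

set_option autoImplicit false
open Complex Set Topology Metric

namespace Pool.Agent.H763R2.Dm

open Sq (Dv Cv Dv_re Dv_im Cv_re Cv_im)

/-- the winding number about `z` is odd -/
def Od (σ τ : ℝ → ℂ) (z : ℂ) : Prop := ∃ n, IsW σ τ z n ∧ Odd n

open Classical in
/-- signed distance function: positive where the winding number is odd -/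
noncomputable def mg (σ τ : ℝ → ℂ) (z : ℂ) : ℝ :=
  if Od σ τ z then infDist z (Cu σ τ) else - infDist z (Cu σ τ)

variable {σ τ : ℝ → ℂ}

theorem mg_abs (z : ℂ) : |mg σ τ z| = infDist z (Cu σ τ) := by
  unfold mg; split_ifs <;> simp [abs_of_nonneg infDist_nonneg]

theorem Arcs.mg_zero (H : Arcs σ τ) {z : ℂ} : mg σ τ z = 0 ↔ z ∈ Cu σ τ := by
  rw [← abs_eq_zero, mg_abs, H.closed.mem_iff_infDist_zero H.ne]

theorem Arcs.mg_lip (H : Arcs σ τ) (z w : ℂ) : |mg σ τ z - mg σ τ w| ≤ ‖z - w‖ := by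
  by_cases h : ∀ s ∈ Icc (0:ℝ) 1, z + s * (w - z) ∉ Cu σ τ
  · have hz : z ∉ Cu σ τ := by simpa using h 0 (by norm_num)
    have e : Od σ τ z ↔ Od σ τ w := by
      obtain ⟨n, hn⟩ := H.exW hz
      have hw := H.segW h hn
      constructor
      · rintro ⟨m, hm, ho⟩
        rw [hm.unique hn] at ho
        exact ⟨n, hw, ho⟩
      · rintro ⟨m, hm, ho⟩
        rw [hm.unique hw] at ho
        exact ⟨n, hn, ho⟩
    have hl : |infDist z (Cu σ τ) - infDist w (Cu σ τ)| ≤ ‖z - w‖ := by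
      rw [← dist_eq_norm, abs_le]
      have h1 := infDist_le_infDist_add_dist (s := Cu σ τ) (x := z) (y := w)
      have h2 := infDist_le_infDist_add_dist (s := Cu σ τ) (x := w) (y := z)
      rw [dist_comm w z] at h2
      constructor <;> linarith
    unfold mg
    by_cases o : Od σ τ z
    · rw [if_pos o, if_pos (e.1 o)]; exact hl
    · rw [if_neg o, if_neg (fun h => o (e.2 h))]
      rw [← abs_neg]; convert hl using 2; ring
  · push Not at h
    obtain ⟨s, ⟨s0, s1⟩, hs⟩ := h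
    set p := z + s * (w - z)
    have h1 : |mg σ τ z| ≤ ‖z - p‖ := by
      rw [mg_abs, ← dist_eq_norm]; exact infDist_le_dist_of_mem hs
    have h2 : |mg σ τ w| ≤ ‖w - p‖ := by
      rw [mg_abs, ← dist_eq_norm]; exact infDist_le_dist_of_mem hs
    have e1 : ‖z - p‖ = s * ‖z - w‖ := by
      rw [show z - p = s * (z - w) by simp only [p]; ring, norm_mul, norm_real,
        Real.norm_of_nonneg s0]
    have e2 : ‖w - p‖ = (1 - s) * ‖z - w‖ := by
      rw [show w - p = -(((1 - s : ℝ) : ℂ) * (z - w)) by simp only [p]; push_cast; ring, norm_neg,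
        norm_mul, norm_real, Real.norm_of_nonneg (by linarith)]
    rw [abs_le] at h1 h2 ⊢
    constructor <;> linarith

theorem Arcs.mg_cont (H : Arcs σ τ) : Continuous (mg σ τ) :=
  (LipschitzWith.mk_one (f := mg σ τ) fun z w => by
    rw [Real.dist_eq, dist_eq_norm]; exact H.mg_lip z w).continuous

theorem Arcs.mg_out (H : Arcs σ τ) {z : ℂ} (hz : 1 < |z.im|) : mg σ τ z ≤ 0 := by
  have hw : IsW σ τ z 0 := by
    rcases lt_abs.1 hz with h | h
    · exact (H.w_top h).2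
    · exact (H.w_bot (by linarith)).2
  have : ¬ Od σ τ z := by
    rintro ⟨m, hm, ho⟩
    rw [hm.unique hw] at ho
    exact absurd ho (by decide)
  unfold mg
  rw [if_neg this]
  simpa using infDist_nonneg

theorem Arcs.mg_top (H : Arcs σ τ) {z : ℂ} (hz : 1 ≤ z.im) : mg σ τ z ≤ 0 := by
  refine le_of_forall_pos_le_add fun ε hε => ?_
  have h1 := H.mg_out (z := z + ε * I) (by rw [lt_abs]; left; simp; linarith)
  have h2 := (abs_le.1 (H.mg_lip z (z + ε * I))).2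
  have h3 : ‖z - (z + ε * I)‖ = ε := by
    rw [show z - (z + ε * I) = -(ε * I) by ring, norm_neg, norm_mul, norm_I, norm_real,
      Real.norm_of_nonneg hε.le, mul_one]
  linarith

theorem Arcs.mg_bot (H : Arcs σ τ) {z : ℂ} (hz : z.im ≤ -1) : mg σ τ z ≤ 0 := by
  refine le_of_forall_pos_le_add fun ε hε => ?_
  have h1 := H.mg_out (z := z - ε * I) (by rw [lt_abs]; right; simp; linarith)
  have h2 := (abs_le.1 (H.mg_lip z (z - ε * I))).2
  have h3 : ‖z - (z - ε * I)‖ = ε := by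
    rw [show z - (z - ε * I) = ε * I by ring, norm_mul, norm_I, norm_real,
      Real.norm_of_nonneg hε.le, mul_one]
  linarith

theorem Arcs.mg_pos_of (H : Arcs σ τ) {z : ℂ} (hz : z ∉ Cu σ τ) (hw : IsW σ τ z 1) :
    0 < mg σ τ z := by
  unfold mg
  rw [if_pos ⟨1, hw, by decide⟩]
  exact (H.closed.notMem_iff_infDist_pos H.ne).1 hz

/-- local condition at `i` -/
def SecQ (σ τ : ℝ → ℂ) (κ ε : ℝ) : Prop := ∀ z ∈ Cu σ τ, ‖z - I‖ < ε →
  z.re ≤ -((1 - κ) * (1 - z.im)) ∨ κ * (1 - z.im) ≤ z.re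

/-- local condition at `-i` -/
def SecP (σ τ : ℝ → ℂ) (κ ε : ℝ) : Prop := ∀ z ∈ Cu σ τ, ‖z + I‖ < ε →
  z.re ≤ -((1 - κ) * (1 + z.im)) ∨ κ * (1 + z.im) ≤ z.re

theorem norm_shrink {z : ℂ} {s : ℝ} (s0 : 0 ≤ s) (s1 : s ≤ 1) :
    ‖(⟨s * z.re, z.im⟩ : ℂ) - I‖ ≤ ‖z - I‖ := by
  have e : (⟨s * z.re, z.im⟩ : ℂ) - I = ((1 - s : ℝ) : ℂ) * (((z.im - 1 : ℝ) : ℂ) * I)
      + (s : ℂ) * (z - I) := by
    apply Complex.ext <;> simp
    ring
  rw [e]
  refine (norm_add_le _ _).trans ?_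
  rw [norm_mul, norm_mul, norm_mul, norm_I, mul_one, norm_real, norm_real, norm_real,
    Real.norm_of_nonneg s0, Real.norm_of_nonneg (by linarith : 0 ≤ 1 - s)]
  have h : ‖z.im - 1‖ ≤ ‖z - I‖ := by
    have := abs_im_le_norm (z - I)
    simpa using this
  nlinarith

theorem Arcs.sec_pos (H : Arcs σ τ) {κ ε : ℝ} (κ0 : 0 ≤ κ) (κ1 : κ ≤ 1) (hε : ε ≤ 1)
    (hS : SecQ σ τ κ ε) {z : ℂ} (hz : ‖z - I‖ < ε) (him : z.im < 1)
    (h : z.re = 0 ∨ (-((1 - κ) * (1 - z.im)) < z.re ∧ z.re < κ * (1 - z.im))) :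
    0 < mg σ τ z := by
  have him0 : 0 < z.im := by
    have := (abs_le.1 (abs_im_le_norm (z - I))).1
    simp only [sub_im, I_im] at this
    linarith
  obtain ⟨h0, hw0⟩ := H.w_seg (z := ⟨0, z.im⟩) rfl (by simp only; linarith) him
  have hseg : ∀ s ∈ Icc (0:ℝ) 1, (⟨0, z.im⟩ : ℂ) + s * (z - ⟨0, z.im⟩) ∉ Cu σ τ := by
    rintro s ⟨s0, s1⟩
    have e : (⟨0, z.im⟩ : ℂ) + s * (z - ⟨0, z.im⟩) = ⟨s * z.re, z.im⟩ := by
      apply Complex.ext <;> simp
    rw [e]
    by_cases hsz : s * z.re = 0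
    · rw [hsz]; exact h0
    · have s0' : 0 < s := lt_of_le_of_ne s0 (by rintro rfl; simp at hsz)
      have hr : z.re ≠ 0 := by intro hr; rw [hr] at hsz; simp at hsz
      obtain ⟨h1, h2⟩ := h.resolve_left hr
      intro hmem
      have a1 : 0 ≤ (1 - κ) * (1 - z.im) := mul_nonneg (by linarith) (by linarith)
      have a2 : 0 ≤ κ * (1 - z.im) := mul_nonneg (by linarith) (by linarith)
      rcases hS _ hmem (lt_of_le_of_lt (norm_shrink s0 s1) hz) with h3 | h3 <;> simp only at h3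
      · rcases lt_or_gt_of_ne hr with hr | hr
        · nlinarith
        · nlinarith
      · rcases lt_or_gt_of_ne hr with hr | hr
        · nlinarith
        · nlinarith
  have hw := H.segW hseg hw0
  have hz' : z ∉ Cu σ τ := by
    have := hseg 1 (by norm_num)
    simpa using this
  exact H.mg_pos_of hz' hw

theorem Arcs.sec_nonneg (H : Arcs σ τ) {κ ε : ℝ} (κ0 : 0 ≤ κ) (κ1 : κ ≤ 1) (hε : ε ≤ 1)
    (hS : SecQ σ τ κ ε) {z : ℂ} (hz : ‖z - I‖ < ε)
    (h1 : -((1 - κ) * (1 - z.im)) ≤ z.re) (h2 : z.re ≤ κ * (1 - z.im)) :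
    0 ≤ mg σ τ z := by
  have him : z.im ≤ 1 := by
    by_contra hc
    push Not at hc
    nlinarith
  rcases lt_or_eq_of_le him with him | him
  · have hc := H.mg_cont
    have := Sq.lim_nonneg' (f := fun s => mg σ τ ⟨(1 - s) * z.re, z.im⟩)
      (by
        have e : (fun s : ℝ => (⟨(1 - s) * z.re, z.im⟩ : ℂ)) =
            fun s : ℝ => (((1 - s) * z.re : ℝ) : ℂ) + (z.im : ℂ) * I := by
          funext s; apply Complex.ext <;> simp
        exact hc.comp (by rw [e]; fun_prop)) ?_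
    · simpa using this
    · rintro s ⟨s0, s1⟩
      refine (H.sec_pos κ0 κ1 hε hS (lt_of_le_of_lt (norm_shrink (by linarith) (by linarith)) hz)
        him ?_).le
      simp only
      by_cases hr : z.re = 0
      · left; rw [hr]; ring
      · right
        have a1 : 0 ≤ (1 - κ) * (1 - z.im) := mul_nonneg (by linarith) (by linarith)
        have a2 : 0 ≤ κ * (1 - z.im) := mul_nonneg (by linarith) (by linarith)
        rcases lt_or_gt_of_ne hr with hr | hr
        · constructor <;> nlinarith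
        · constructor <;> nlinarith
  · have : z = I := by
      rw [him] at h1 h2
      apply Complex.ext
      · simp at h1 h2 ⊢; linarith
      · simpa using him
    rw [this, H.mg_zero.2 H.memI]

theorem Arcs.secσ (H : Arcs σ τ) {κ ε : ℝ} (κ1 : κ ≤ 1) (hε : ε ≤ 1)
    (hS : SecQ σ τ κ ε) {u : ℝ} (hu : ‖σ u - I‖ < ε) : κ * (1 - (σ u).im) ≤ (σ u).re := by
  rcases hS _ (mem_σ u) hu with h | h
  · have h0 := H.σre u
    have hi := (abs_le.1 (H.σi u)).2
    have hre : (σ u).re = 0 := by nlinarith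
    rcases le_or_gt u 0 with h' | h'
    · rw [H.σ0 u h'] at hu
      have : ‖-I - I‖ = 2 := by
        rw [show -I - I = -(2 * I) by ring, norm_neg, norm_mul, norm_I]; norm_num
      linarith
    rcases le_or_gt 1 u with h'' | h''
    · rw [H.σ1 u h'']; simp
    · have := H.σp u ⟨h', h''⟩
      linarith
  · exact h

theorem Arcs.secτ (H : Arcs σ τ) {κ ε : ℝ} (κ0 : 0 ≤ κ) (hε : ε ≤ 1)
    (hS : SecQ σ τ κ ε) {u : ℝ} (hu : ‖τ u - I‖ < ε) :
    (τ u).re ≤ -((1 - κ) * (1 - (τ u).im)) := by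
  rcases hS _ (mem_τ u) hu with h | h
  · exact h
  · have h0 := H.τre u
    have hi := (abs_le.1 (H.τi u)).2
    have hre : (τ u).re = 0 := by nlinarith
    rcases le_or_gt u 0 with h' | h'
    · rw [H.τ0 u h']; simp
    rcases le_or_gt 1 u with h'' | h''
    · rw [H.τ1 u h''] at hu
      have : ‖-I - I‖ = 2 := by
        rw [show -I - I = -(2 * I) by ring, norm_neg, norm_mul, norm_I]; norm_num
      linarith
    · have := H.τn u ⟨h', h''⟩
      linarith

theorem Arcs.secσ' (H : Arcs σ τ) {κ ε : ℝ} (κ1 : κ ≤ 1) (hε : ε ≤ 1)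
    (hS : SecP σ τ κ ε) {u : ℝ} (hu : ‖σ u + I‖ < ε) : κ * (1 + (σ u).im) ≤ (σ u).re := by
  rcases hS _ (mem_σ u) hu with h | h
  · have h0 := H.σre u
    have hi := (abs_le.1 (H.σi u)).1
    have hre : (σ u).re = 0 := by nlinarith
    rcases le_or_gt 1 u with h'' | h''
    · rw [H.σ1 u h''] at hu
      have : ‖I + I‖ = 2 := by
        rw [show I + I = 2 * I by ring, norm_mul, norm_I]; norm_num
      linarith
    rcases le_or_gt u 0 with h' | h'
    · rw [H.σ0 u h']; simp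
    · have := H.σp u ⟨h', h''⟩
      linarith
  · exact h

theorem Arcs.secτ' (H : Arcs σ τ) {κ ε : ℝ} (κ0 : 0 ≤ κ) (hε : ε ≤ 1)
    (hS : SecP σ τ κ ε) {u : ℝ} (hu : ‖τ u + I‖ < ε) :
    (τ u).re ≤ -((1 - κ) * (1 + (τ u).im)) := by
  rcases hS _ (mem_τ u) hu with h | h
  · exact h
  · have h0 := H.τre u
    have hi := (abs_le.1 (H.τi u)).1
    have hre : (τ u).re = 0 := by nlinarith
    rcases le_or_gt u 0 with h' | h'
    · rw [H.τ0 u h'] at hu
      have : ‖I + I‖ = 2 := by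
        rw [show I + I = 2 * I by ring, norm_mul, norm_I]; norm_num
      linarith
    rcases le_or_gt 1 u with h'' | h''
    · rw [H.τ1 u h'']; simp
    · have := H.τn u ⟨h', h''⟩
      linarith

theorem norm_Dv {A B : ℂ} {r : ℝ} (hA : ‖A - I‖ < r) (hB : ‖B - I‖ < r) :
    ‖Dv A B - I‖ < 3 * r := by
  have e : Dv A B - I = (A - I) + (I * (B - I) - I * (A - I)) := by unfold Sq.Dv; ring
  rw [e]
  have h1 := norm_add_le (A - I) (I * (B - I) - I * (A - I))
  have h2 := norm_sub_le (I * (B - I)) (I * (A - I))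
  rw [norm_mul, norm_mul, norm_I, one_mul, one_mul] at h2
  linarith

theorem norm_Cv {A B : ℂ} {r : ℝ} (hA : ‖A - I‖ < r) (hB : ‖B - I‖ < r) :
    ‖Cv A B - I‖ < 3 * r := by
  have e : Cv A B - I = (B - I) + (I * (B - I) - I * (A - I)) := by unfold Sq.Cv; ring
  rw [e]
  have h1 := norm_add_le (B - I) (I * (B - I) - I * (A - I))
  have h2 := norm_sub_le (I * (B - I)) (I * (A - I))
  rw [norm_mul, norm_mul, norm_I, one_mul, one_mul] at h2
  linarith

theorem Arcs.q1 (H : Arcs σ τ) {κ ε : ℝ} (κ0 : 0 ≤ κ) (κ1 : κ ≤ 1) (hε : ε ≤ 1)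
    (hS : SecQ σ τ κ ε) {A B : ℂ} (hA : ‖A - I‖ < ε / 3) (hB : ‖B - I‖ < ε / 3)
    (hAi : A.im ≤ 1) (hBi : B.im ≤ 1)
    (hA1 : κ * (1 - A.im) ≤ A.re) (hB1 : B.re ≤ -((1 - κ) * (1 - B.im))) :
    0 ≤ mg σ τ (Dv A B) ∨ 0 ≤ mg σ τ (Cv A B) := by
  have nD := norm_Dv hA hB
  have nC := norm_Cv hA hB
  rw [mul_div_cancel₀ _ (by norm_num : (3:ℝ) ≠ 0)] at nD nC
  have a0 : 0 ≤ κ * (1 - A.im) := mul_nonneg κ0 (by linarith)
  have b0 : 0 ≤ (1 - κ) * (1 - B.im) := mul_nonneg (by linarith) (by linarith)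
  have hAr : 0 ≤ A.re := by linarith
  have hBr : B.re ≤ 0 := by linarith
  have c1 : 0 ≤ (1 - κ) * A.re := mul_nonneg (by linarith) hAr
  have c2 : 0 ≤ κ * (-B.re) := mul_nonneg κ0 (by linarith)
  have c3 : 0 ≤ κ * A.re := mul_nonneg κ0 hAr
  have c4 : 0 ≤ (1 - κ) * (-B.re) := mul_nonneg (by linarith) (by linarith)
  by_cases h : (Dv A B).re ≤ κ * (1 - (Dv A B).im)
  · left
    refine H.sec_nonneg κ0 κ1 hε hS nD ?_ h
    rw [Dv_re, Dv_im]
    nlinarith
  · right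
    push Not at h
    refine H.sec_nonneg κ0 κ1 hε hS nC ?_ ?_
    · rw [Dv_re, Dv_im] at h
      rw [Cv_re, Cv_im]
      nlinarith
    · rw [Cv_re, Cv_im]
      nlinarith

theorem Arcs.q2 (H : Arcs σ τ) {κ ε : ℝ} (κ0 : 0 ≤ κ) (κ1 : κ ≤ 1) (hε : ε ≤ 1)
    (hS : SecQ σ τ κ ε) {A : ℂ} (hA : ‖A - I‖ < ε / 3) (hAi : A.im ≤ 1)
    (hA1 : κ * (1 - A.im) ≤ A.re) (h : mg σ τ (Dv A I) < 0) : 0 < mg σ τ (Cv A I) := by
  have hε0 : 0 < ε / 3 := lt_of_le_of_lt (norm_nonneg _) hA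
  have nD := norm_Dv hA (B := I) (by simpa using hε0)
  have nC := norm_Cv hA (B := I) (by simpa using hε0)
  rw [mul_div_cancel₀ _ (by norm_num : (3:ℝ) ≠ 0)] at nD nC
  have a0 : 0 ≤ κ * (1 - A.im) := mul_nonneg κ0 (by linarith)
  have hAr : 0 ≤ A.re := by linarith
  have c1 : 0 ≤ (1 - κ) * A.re := mul_nonneg (by linarith) hAr
  have c3 : 0 ≤ κ * A.re := mul_nonneg κ0 hAr
  have hD : ¬ ((Dv A I).re ≤ κ * (1 - (Dv A I).im)) := by
    intro h'
    have := H.sec_nonneg κ0 κ1 hε hS nD (by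
      rw [Dv_re, Dv_im, I_re, I_im]
      nlinarith) h'
    linarith
  push Not at hD
  rw [Dv_re, Dv_im, I_re, I_im] at hD
  have hpos : 0 < A.re := by
    rcases lt_or_eq_of_le hAr with h' | h'
    · exact h'
    · exfalso; rw [← h'] at hD; nlinarith
  refine H.sec_pos κ0 κ1 hε hS nC ?_ ?_
  · rw [Cv_im, I_re, I_im]; linarith
  · rw [Cv_re, Cv_im, I_re, I_im]
    rcases lt_or_eq_of_le hAi with h' | h'
    · right; constructor <;> nlinarith
    · left; linarith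

theorem Arcs.q3 (H : Arcs σ τ) {κ ε : ℝ} (κ0 : 0 ≤ κ) (κ1 : κ ≤ 1) (hε : ε ≤ 1)
    (hS : SecQ σ τ κ ε) {B : ℂ} (hB : ‖B - I‖ < ε / 3) (hBi : B.im ≤ 1)
    (hB1 : B.re ≤ -((1 - κ) * (1 - B.im))) (h : mg σ τ (Cv I B) < 0) :
    0 < mg σ τ (Dv I B) := by
  have hε0 : 0 < ε / 3 := lt_of_le_of_lt (norm_nonneg _) hB
  have nD := norm_Dv (A := I) (by simpa using hε0) hB
  have nC := norm_Cv (A := I) (by simpa using hε0) hB
  rw [mul_div_cancel₀ _ (by norm_num : (3:ℝ) ≠ 0)] at nD nC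
  have b0 : 0 ≤ (1 - κ) * (1 - B.im) := mul_nonneg (by linarith) (by linarith)
  have hBr : B.re ≤ 0 := by linarith
  have c2 : 0 ≤ κ * (-B.re) := mul_nonneg κ0 (by linarith)
  have c4 : 0 ≤ (1 - κ) * (-B.re) := mul_nonneg (by linarith) (by linarith)
  have hC : ¬ (-((1 - κ) * (1 - (Cv I B).im)) ≤ (Cv I B).re) := by
    intro h'
    have := H.sec_nonneg κ0 κ1 hε hS nC h' (by
      rw [Cv_re, Cv_im, I_re, I_im]
      nlinarith)
    linarith
  push Not at hC
  rw [Cv_re, Cv_im, I_re, I_im] at hC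
  have hpos : B.re < 0 := by
    rcases lt_or_eq_of_le hBr with h' | h'
    · exact h'
    · exfalso; rw [h'] at hC; nlinarith
  refine H.sec_pos κ0 κ1 hε hS nD ?_ ?_
  · rw [Dv_im, I_re, I_im]; linarith
  · rw [Dv_re, Dv_im, I_re, I_im]
    rcases lt_or_eq_of_le hBi with h' | h'
    · right; constructor <;> nlinarith
    · left; linarith

theorem Arcs.p1 (H : Arcs σ τ) {κ : ℝ} (κ0 : 0 ≤ κ) (κ1 : κ ≤ 1) {A B : ℂ}
    (hA1 : κ * (1 + A.im) ≤ A.re) (hB1 : B.re ≤ -((1 - κ) * (1 + B.im)))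
    (hD : 0 < mg σ τ (Dv A B)) (hC : 0 < mg σ τ (Cv A B)) : False := by
  have h1 : -1 < (Dv A B).im := by
    by_contra hc; push Not at hc
    exact absurd (H.mg_bot hc) (by linarith)
  have h2 : -1 < (Cv A B).im := by
    by_contra hc; push Not at hc
    exact absurd (H.mg_bot hc) (by linarith)
  rw [Dv_im] at h1
  rw [Cv_im] at h2
  rcases lt_or_eq_of_le κ0 with h | h
  · nlinarith
  · rw [← h] at hA1 hB1
    nlinarith

end Pool.Agent.H763R2.Dm
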