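import Pool.Agent.H777R2.Top
import Pool.Agent.H763R2.Sq.Wind

/-! Winding numbers of a closed curve made of two arcs. -/

set_option autoImplicit false
open Complex Set Topology Metric

namespace Pool.Agent.H763R2.Dm

/-- two arcs: `σ` from `-i` to `i` in the right half of the strip `|Im z| ≤ 1`, `τ` from `i` to `-i`
in the left half -/
structure Arcs (σ τ : ℝ → ℂ) : Prop where
  cσ : Continuous σ
  cτ : Continuous τ
  σ0 : ∀ u ≤ 0, σ u = -I
  σ1 : ∀ u, 1 ≤ u → σ u = I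
  τ0 : ∀ v ≤ 0, τ v = I
  τ1 : ∀ v, 1 ≤ v → τ v = -I
  σp : ∀ u ∈ Ioo (0:ℝ) 1, 0 < (σ u).re
  τn : ∀ v ∈ Ioo (0:ℝ) 1, (τ v).re < 0
  σi : ∀ u, |(σ u).im| ≤ 1
  τi : ∀ v, |(τ v).im| ≤ 1

/-- the curve -/
def Cu (σ τ : ℝ → ℂ) : Set ℂ := range σ ∪ range τ

/-- `n` is the winding number of the curve about `z` -/
def IsW (σ τ : ℝ → ℂ) (z : ℂ) (n : ℤ) : Prop :=
  ∃ k l : ℝ → ℂ, Continuous k ∧ Continuous l ∧ (∀ t, exp (k t) = σ t - z) ∧
    (∀ t, exp (l t) = τ t - z) ∧ k 1 - k 0 + (l 1 - l 0) = n * (2 * Real.pi * I)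

variable {σ τ : ℝ → ℂ}

theorem Arcs.σre (H : Arcs σ τ) (u : ℝ) : 0 ≤ (σ u).re := by
  rcases le_or_gt u 0 with h | h
  · rw [H.σ0 u h]; simp
  rcases le_or_gt 1 u with h' | h'
  · rw [H.σ1 u h']; simp
  · exact (H.σp u ⟨h, h'⟩).le

theorem Arcs.τre (H : Arcs σ τ) (v : ℝ) : (τ v).re ≤ 0 := by
  rcases le_or_gt v 0 with h | h
  · rw [H.τ0 v h]; simp
  rcases le_or_gt 1 v with h' | h'
  · rw [H.τ1 v h']; simp
  · exact (H.τn v ⟨h, h'⟩).le

theorem mem_σ (u : ℝ) : σ u ∈ Cu σ τ := Or.inl (mem_range_self u)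
theorem mem_τ (v : ℝ) : τ v ∈ Cu σ τ := Or.inr (mem_range_self v)

theorem range_clamp {f : ℝ → ℂ} {a b : ℂ} (h0 : ∀ u ≤ 0, f u = a) (h1 : ∀ u, 1 ≤ u → f u = b) :
    range f = f '' Icc 0 1 := by
  apply Subset.antisymm
  · rintro _ ⟨u, rfl⟩
    rcases le_or_gt u 0 with h | h
    · exact ⟨0, by norm_num, by rw [h0 0 le_rfl, h0 u h]⟩
    rcases le_or_gt 1 u with h' | h'
    · exact ⟨1, by norm_num, by rw [h1 1 le_rfl, h1 u h']⟩
    · exact ⟨u, ⟨h.le, h'.le⟩, rfl⟩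
  · exact image_subset_range _ _

theorem Arcs.compact (H : Arcs σ τ) : IsCompact (Cu σ τ) := by
  unfold Cu
  rw [range_clamp H.σ0 H.σ1, range_clamp H.τ0 H.τ1]
  exact (isCompact_Icc.image H.cσ).union (isCompact_Icc.image H.cτ)

theorem Arcs.closed (H : Arcs σ τ) : IsClosed (Cu σ τ) := H.compact.isClosed

theorem Arcs.ne (_H : Arcs σ τ) : (Cu σ τ).Nonempty := ⟨σ 0, mem_σ 0⟩

theorem Arcs.memI (H : Arcs σ τ) : I ∈ Cu σ τ := by
  have := mem_σ (σ := σ) (τ := τ) 1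
  rwa [H.σ1 1 le_rfl] at this

theorem Arcs.memnI (H : Arcs σ τ) : -I ∈ Cu σ τ := by
  have := mem_σ (σ := σ) (τ := τ) 0
  rwa [H.σ0 0 le_rfl] at this

theorem ne_of_notMem {z : ℂ} (hz : z ∉ Cu σ τ) : (∀ t, σ t - z ≠ 0) ∧ (∀ t, τ t - z ≠ 0) := by
  constructor
  · intro t h
    rw [sub_eq_zero] at h
    exact hz (h ▸ mem_σ t)
  · intro t h
    rw [sub_eq_zero] at h
    exact hz (h ▸ mem_τ t)

theorem Arcs.exW (H : Arcs σ τ) {z : ℂ} (hz : z ∉ Cu σ τ) : ∃ n, IsW σ τ z n := by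
  obtain ⟨h1, h2⟩ := ne_of_notMem hz
  obtain ⟨k, hk, hke⟩ := H777R2.exists_log (X := ℝ) (g := fun t => σ t - z)
    (H.cσ.sub continuous_const) h1
  obtain ⟨l, hl, hle⟩ := H777R2.exists_log (X := ℝ) (g := fun t => τ t - z)
    (H.cτ.sub continuous_const) h2
  have e : exp (k 1 - k 0 + (l 1 - l 0)) = 1 := by
    have a1 := h1 1
    have a0 := h1 0
    rw [exp_add, exp_sub, exp_sub, hke, hke, hle, hle]
    rw [H.σ1 1 le_rfl, H.σ0 0 le_rfl, H.τ0 0 le_rfl, H.τ1 1 le_rfl]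
    rw [H.σ1 1 le_rfl] at a1
    rw [H.σ0 0 le_rfl] at a0
    field_simp
  obtain ⟨n, hn⟩ := exp_eq_one_iff.1 e
  exact ⟨n, k, l, hk, hl, hke, hle, hn⟩

theorem log_diff_unique {g k k' : ℝ → ℂ} (hk : Continuous k) (hk' : Continuous k')
    (h : ∀ t, exp (k t) = g t) (h' : ∀ t, exp (k' t) = g t) : k 1 - k 0 = k' 1 - k' 0 := by
  have := H777R2.exp_const (X := ℝ) (k := fun t => k t - k' t) (hk.sub hk') (c := 1)
    (fun t => by rw [exp_sub, h, h', div_self]; rw [← h]; exact exp_ne_zero _) 1 0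
  linear_combination this

theorem IsW.unique {z : ℂ} {n m : ℤ} (h : IsW σ τ z n) (h' : IsW σ τ z m) : n = m := by
  obtain ⟨k, l, hk, hl, ek, el, e⟩ := h
  obtain ⟨k', l', hk', hl', ek', el', e'⟩ := h'
  rw [log_diff_unique hk hk' ek ek', log_diff_unique hl hl' el el', e'] at e
  have hpi : (2 * Real.pi * I : ℂ) ≠ 0 := by simp [Real.pi_ne_zero]
  have := mul_right_cancel₀ hpi e
  exact_mod_cast this.symm

theorem Arcs.pathW (H : Arcs σ τ) {β : ℝ → ℂ} (hβ : Continuous β) (hC : ∀ s, β s ∉ Cu σ τ)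
    {n : ℤ} (h : IsW σ τ (β 0) n) : IsW σ τ (β 1) n := by
  obtain ⟨K, hK, hKe⟩ := H777R2.exists_log (X := ℝ × ℝ) (g := fun x => σ x.1 - β x.2)
    (by have := H.cσ; fun_prop) (fun x => (ne_of_notMem (hC x.2)).1 x.1)
  obtain ⟨L, hL, hLe⟩ := H777R2.exists_log (X := ℝ × ℝ) (g := fun x => τ x.1 - β x.2)
    (by have := H.cτ; fun_prop) (fun x => (ne_of_notMem (hC x.2)).2 x.1)
  obtain ⟨k, l, hk, hl, ek, el, e⟩ := h
  have c := H777R2.exp_const (X := ℝ)
    (k := fun s => K (1, s) - K (0, s) + (L (1, s) - L (0, s))) (by fun_prop) (c := 1)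
    (fun s => by
      have a1 := (ne_of_notMem (hC s)).1 1
      have a0 := (ne_of_notMem (hC s)).1 0
      rw [exp_add, exp_sub, exp_sub, hKe, hKe, hLe, hLe]
      simp only
      rw [H.σ1 1 le_rfl, H.σ0 0 le_rfl, H.τ0 0 le_rfl, H.τ1 1 le_rfl]
      rw [H.σ1 1 le_rfl] at a1
      rw [H.σ0 0 le_rfl] at a0
      field_simp) 1 0
  refine ⟨fun t => K (t, 1), fun t => L (t, 1), by fun_prop, by fun_prop, fun t => hKe _,
    fun t => hLe _, ?_⟩
  simp only at c ⊢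
  rw [c, ← e]
  rw [log_diff_unique (k := fun t => K (t, 0)) (k' := k) (g := fun t => σ t - β 0)
    (by fun_prop) hk (fun t => hKe _) ek,
    log_diff_unique (k := fun t => L (t, 0)) (k' := l) (g := fun t => τ t - β 0)
    (by fun_prop) hl (fun t => hLe _) el]

/-- a segment version -/
theorem Arcs.segW (H : Arcs σ τ) {z w : ℂ} (hC : ∀ s ∈ Icc (0:ℝ) 1, z + s * (w - z) ∉ Cu σ τ)
    {n : ℤ} (h : IsW σ τ z n) : IsW σ τ w n := by
  have := H.pathW (β := fun s => z + ((max 0 (min 1 s) : ℝ) : ℂ) * (w - z)) (by fun_prop)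
    (fun s => hC _ ⟨le_max_left _ _, max_le zero_le_one (min_le_left _ _)⟩) (n := n)
    (by simpa using h)
  simpa using this

theorem Arcs.w_top (H : Arcs σ τ) {z : ℂ} (hz : 1 < z.im) : z ∉ Cu σ τ ∧ IsW σ τ z 0 := by
  have hz' : z ∉ Cu σ τ := by
    rintro (⟨t, rfl⟩ | ⟨t, rfl⟩)
    · have := (abs_le.1 (H.σi t)).2; linarith
    · have := (abs_le.1 (H.τi t)).2; linarith
  refine ⟨hz', ?_⟩
  obtain ⟨n, k, l, hk, hl, ek, el, e⟩ := H.exW hz'
  have hs : ∀ w : ℂ, w.im ≤ 1 → (w - z) / (-I) ∈ slitPlane := by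
    intro w hw
    left
    have : (w - z) / (-I) = I * (w - z) := by
      rw [div_neg, div_I]; ring
    rw [this]
    simp
    linarith
  have e1 := Sq.log_diff_on (g := fun t => σ t - z) (k := k) (by have := H.cσ; fun_prop) hk ek
    (c := -I) (by simp) (fun t _ => hs _ (abs_le.1 (H.σi t)).2)
  have e2 := Sq.log_diff_on (g := fun t => τ t - z) (k := l) (by have := H.cτ; fun_prop) hl el
    (c := -I) (by simp) (fun t _ => hs _ (abs_le.1 (H.τi t)).2)
  simp only [H.σ1 1 le_rfl, H.σ0 0 le_rfl] at e1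
  simp only [H.τ1 1 le_rfl, H.τ0 0 le_rfl] at e2
  refine ⟨k, l, hk, hl, ek, el, ?_⟩
  rw [e1, e2]; push_cast; ring

theorem Arcs.w_bot (H : Arcs σ τ) {z : ℂ} (hz : z.im < -1) : z ∉ Cu σ τ ∧ IsW σ τ z 0 := by
  have hz' : z ∉ Cu σ τ := by
    rintro (⟨t, rfl⟩ | ⟨t, rfl⟩)
    · have := (abs_le.1 (H.σi t)).1; linarith
    · have := (abs_le.1 (H.τi t)).1; linarith
  refine ⟨hz', ?_⟩
  obtain ⟨n, k, l, hk, hl, ek, el, e⟩ := H.exW hz'
  have hs : ∀ w : ℂ, -1 ≤ w.im → (w - z) / I ∈ slitPlane := by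
    intro w hw
    left
    have : (w - z) / I = -I * (w - z) := by
      rw [div_I]; ring
    rw [this]
    simp
    linarith
  have e1 := Sq.log_diff_on (g := fun t => σ t - z) (k := k) (by have := H.cσ; fun_prop) hk ek
    (c := I) (by simp) (fun t _ => hs _ (abs_le.1 (H.σi t)).1)
  have e2 := Sq.log_diff_on (g := fun t => τ t - z) (k := l) (by have := H.cτ; fun_prop) hl el
    (c := I) (by simp) (fun t _ => hs _ (abs_le.1 (H.τi t)).1)
  simp only [H.σ1 1 le_rfl, H.σ0 0 le_rfl] at e1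
  simp only [H.τ1 1 le_rfl, H.τ0 0 le_rfl] at e2
  refine ⟨k, l, hk, hl, ek, el, ?_⟩
  rw [e1, e2]; push_cast; ring

theorem Arcs.w_seg (H : Arcs σ τ) {z : ℂ} (hz : z.re = 0) (h1 : -1 < z.im) (h2 : z.im < 1) :
    z ∉ Cu σ τ ∧ IsW σ τ z 1 := by
  have nI : z ≠ I := by rintro rfl; simp at h2
  have nnI : z ≠ -I := by rintro rfl; simp at h1
  have hz' : z ∉ Cu σ τ := by
    rintro (⟨t, ht⟩ | ⟨t, ht⟩)
    · rcases le_or_gt t 0 with h | h
      · exact nnI (by rw [← ht, H.σ0 t h])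
      rcases le_or_gt 1 t with h' | h'
      · exact nI (by rw [← ht, H.σ1 t h'])
      have := H.σp t ⟨h, h'⟩
      rw [ht, hz] at this; exact lt_irrefl _ this
    · rcases le_or_gt t 0 with h | h
      · exact nI (by rw [← ht, H.τ0 t h])
      rcases le_or_gt 1 t with h' | h'
      · exact nnI (by rw [← ht, H.τ1 t h'])
      have := H.τn t ⟨h, h'⟩
      rw [ht, hz] at this; exact lt_irrefl _ this
  refine ⟨hz', ?_⟩
  obtain ⟨n, k, l, hk, hl, ek, el, e⟩ := H.exW hz'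
  have e1 := Sq.log_diff_on (g := fun t => σ t - z) (k := k) (by have := H.cσ; fun_prop) hk ek
    (c := 1) one_ne_zero (fun t _ => by
      rw [div_one, mem_slitPlane_iff]
      rcases lt_or_eq_of_le (H.σre t) with h | h
      · left; rw [sub_re, hz]; linarith
      · right
        intro h3
        rw [sub_im, sub_eq_zero] at h3
        exact hz' (by
          have : σ t = z := Complex.ext (by rw [← h, hz]) h3
          rw [← this]; exact mem_σ t))
  have e2 := Sq.log_diff_on (g := fun t => τ t - z) (k := l) (by have := H.cτ; fun_prop) hl el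
    (c := -1) (neg_ne_zero.2 one_ne_zero) (fun t _ => by
      have h3 : (τ t - z) / (-1) = z - τ t := by ring
      rw [h3, mem_slitPlane_iff]
      rcases lt_or_eq_of_le (H.τre t) with h | h
      · left; rw [sub_re, hz]; linarith
      · right
        intro h3
        rw [sub_im, sub_eq_zero] at h3
        exact hz' (by
          have : τ t = z := Complex.ext (by rw [h, hz]) h3.symm
          rw [← this]; exact mem_τ t))
  simp only [H.σ1 1 le_rfl, H.σ0 0 le_rfl, div_one] at e1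
  simp only [H.τ1 1 le_rfl, H.τ0 0 le_rfl] at e2
  have g1 : (I - z) / (-1) = -(I - z) := by ring
  have g2 : (-I - z) / (-1) = -(-I - z) := by ring
  rw [g1, g2, Sq.log_neg_im_pos (z := I - z) (by simp; linarith),
    Sq.log_neg_im_neg (z := -I - z) (by simp; linarith)] at e2
  refine ⟨k, l, hk, hl, ek, el, ?_⟩
  rw [e1, e2]; push_cast; ring

end Pool.Agent.H763R2.Dm
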